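import Pool.Agent.H815.QC.Defs

/-!
# Project QC (MP_c91b70_al): statements of the lemmas

Library used: `Pool.Agent.T2H65.GP` (Basic, Act, Len, Axis, Std, Irr, Min): `GrP Λ B` is the graph product, `std Λ B T` the
standard subgroup, `er` the retraction onto it, `Mn Λ B T x`: `x ∈ std T` and no conjugate of `x` is in `std T'` for a
proper subset `T'` of `T`; `exists_Mn`, `conj_std`, `Mn_sub`, `cent_Mn`, `comm_Mn`, `cent_irr`, `std_comm`, `std_mono`, `tf`.
-/

set_option autoImplicit false

namespace Pool.Agent.H815.QC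

open Pool.Agent.Y110.FJ Pool.Agent.T2H65.GP

/-! ### general lemmas on graph products -/

/-- B1. This is `T2H65.GP.cent_irr` without the hypothesis that the vertex groups are torsion-free. In its proof that
hypothesis is used only for: an element `y` commuting with `x` with `y * y = 1` is `1`. If `y ≠ 1` then `y` has full support
by `comm_Mn`; apply `exists_CR` to `Phi y`: in the first two cases `y` is conjugate into `std (≠ v)` or into the star of `v`
(`dec1`, `dec2`), a contradiction; in the third case (`left ≠ 1`, cyclically reduced) the square has `left` of length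
`2 * len ≠ 0`, so the square is not `1`. -/
def S_B1 : Prop := ∀ (V : Type) [Finite V] (Λ : SimpleGraph V) (B : V → Type) [∀ v, Group (B v)],
  Irr Λ → (∃ v u : V, u ≠ v) → ∀ x : GrP Λ B, Mn Λ B (fun _ => True) x →
  ∃ z, z * x = x * z ∧ ∀ y, y * x = x * y → y ∈ Subgroup.zpowers z

/-- B2. From B1: centralizers in free products of cyclic groups. Take `T`, `c` with `Mn T (c⁻¹ d c)` (`exists_Mn`); by
`conj_std` replace `c` by `er S c ∈ std S`, so that `T ⊆ S` (`Mn_sub`). If `y ∈ std S` commutes with `d` then `c⁻¹ y c ∈ std S`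
commutes with `c⁻¹ d c`, so by `cent_Mn` it is a product of an element of the centralizer in `std T` and of an element of
`std` of the common neighbours of `T`; apply `er S` to see that it is in `std T` (no vertex of `S` is adjacent to an
element of `T`, `T` is not empty as `d ≠ 1`). If `T` is a single vertex, the group `std T` is the cyclic vertex group. If
`T` has at least two elements use B1 for the full subgraph on `T` (`Mn_inc`, `inc`; independent sets are `Irr`). -/
def S_B2 : Prop := ∀ (V : Type) [Finite V] (Λ : SimpleGraph V) (B : V → Type) [∀ v, Group (B v)],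
  (∀ v, IsCyclic (B v)) → ∀ S : V → Prop, Ind Λ S → ∀ d ∈ std Λ B S, d ≠ 1 →
  ∃ z : GrP Λ B, ∀ y ∈ std Λ B S, y * d = d * y → y ∈ Subgroup.zpowers z

/-- B3. A form of `cent_Mn`. -/
def S_B3 : Prop := ∀ (V : Type) [Finite V] (Λ : SimpleGraph V) (B : V → Type) [∀ v, Group (B v)]
  (T : V → Prop) (x : GrP Λ B), Mn Λ B T x → ∀ y, y * x = x * y →
  ∃ y1 ∈ std Λ B T, ∃ y2 ∈ std Λ B (pp Λ T), y = y1 * y2 ∧ y1 * x = x * y1

/-- B4. Elements of `std S` commuting with an element of full support have full support (from `comm_Mn` for the full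
subgraph on `S`). -/
def S_B4 : Prop := ∀ (V : Type) [Finite V] (Λ : SimpleGraph V) (B : V → Type) [∀ v, Group (B v)]
  (S : V → Prop), Ind Λ S → Two S → ∀ x, Mn Λ B S x → ∀ y ∈ std Λ B S, y ≠ 1 → y * x = x * y → Mn Λ B S y

/-- B5. Centralizers of elements of full support in `std T` are abelian, if the vertex groups are cyclic. Induction on the
number of elements of `T`: if `T` is the join of two nonempty parts use `join_cent`, `join_Mn`, `join_dec` of `GP.Min`
(work in the full subgraph on `T`); otherwise it is `Irr`, use B1, or `T` has at most one element. -/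
def S_B5 : Prop := ∀ (V : Type) [Finite V] (Λ : SimpleGraph V) (B : V → Type) [∀ v, Group (B v)],
  (∀ v, IsCyclic (B v)) → ∀ (T : V → Prop) (x : GrP Λ B), Mn Λ B T x → ∀ a ∈ std Λ B T, ∀ b ∈ std Λ B T,
  a * x = x * a → b * x = x * b → a * b = b * a

/-- B6. If `H` is torsion-free, not abelian, and centralizers of nontrivial elements are contained in cyclic groups, then
the commutator subgroup is not abelian. Proof: suppose `D = [H, H]` is abelian, take `d ∈ D`, `d ≠ 1`. Then `D` is contained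
in a cyclic group `⟨z⟩`, and it is infinite cyclic and normalized by every `l ∈ H`, so `l d l⁻¹ = d` or `d⁻¹`; so `l²`
commutes with `d`. If `l ≠ 1` then `l² ≠ 1`, and `l`, `d` are both in the centralizer of `l²`, contained in a cyclic group,
so `l` commutes with `d`. So `H` is contained in the centralizer of `d`, which is abelian. -/
def S_B6 : Prop := ∀ (N : Type) [Group N] (H : Subgroup N), TFr N → CC H → NA H → NA ⁅H, H⁆

/-- B7. Subgroups of right-angled Artin groups are torsion-free (`tf`). -/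
def S_B7 : Prop := ∀ (V : Type) [Finite V] (Λ : SimpleGraph V) (N : Type) [Group N] (β : N →* P2 Λ),
  Function.Injective β → TFr N

/-! ### the first side

In all these statements `N` is torsion-free and `α : N →* P1` is injective with image of finite index. -/

/-- P1. `cl v` and `nb v` are independent in `Γ1`, so the first two claims are B2. For the others use the finite index:
`g (a b) ^ m g⁻¹` and `g (a c) ^ m g⁻¹` are in the image of `α` for some `m > 0`, for three different elements `a`, `b`, `c` of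
`cl v`. They do not commute: `x = (a b) ^ m` has infinite order so `Mn {a, b} x`, and if `y = (a c) ^ m` commutes with `x` then
`y ∈ std ({a, b} ∪ nb v)` by `cent_Mn`, `y ∈ std {a, c}`, so `y ∈ std {a}` and `y ^ 2 = 1`, a contradiction. (`(a b) ^ k ≠ 1`:
e.g. by a homomorphism to the infinite dihedral group.) -/
def S_P1 : Prop := ∀ (N : Type) [Group N] (α : N →* P1), Vir α → TFr N → ∀ v g,
  CC (Hs α v g) ∧ CC (Ks α v g) ∧ NA (Hs α v g) ∧ NA (Ks α v g)

/-- P3. The centralizers of the commutator subgroup of the small factor, and of the large factor. First: let `y` commute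
with `[H, H]`, where `H = Hs α v g` (by conjugation think of `g = 1`). `[H, H]` is not abelian (P1, B6). Let
`d ∈ [H, H]`, `d ≠ 1`, so `d ∈ G_v = std (cl v)`, and `Mn T (c⁻¹ d c)` with `T ⊆ cl v`, `c ∈ std (cl v)` (`conj_std`), `T` not
empty; the common neighbours of `T` are `nb v`. `T` has at least two elements as `d` has infinite order. So `y = y₁ y₂` with
`y₁ ∈ std (cl v)` commuting with `d` and `y₂ ∈ std (nb v)` (B3), which commutes with `std (cl v)`; so `y₁` commutes with
`[H, H]`. If `y₁ ≠ 1` then by B2 the centralizer of `y₁` in `std (cl v)` is contained in a cyclic group, but it contains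
`[H, H]`: contradiction. So `y = y₂`. Second: let `y` commute with `K = Ks α v g`; take `k ∈ K` of the form `(s t) ^ m`
(conjugated by `g`) with `s`, `t` in the two different classes of `nb v`; the common neighbours of `{s, t}` are `cl v`, so
`y = y₁ y₂` with `y₁ ∈ std {s, t}`, `y₂ ∈ std (cl v)`, and `y₁` commutes with `K`, so `y₁ = 1` by B2 and `NA K`. -/
def S_P3 : Prop := ∀ (N : Type) [Group N] (α : N →* P1), Vir α → TFr N → ∀ v g,
  (∀ y, (∀ h ∈ ⁅Hs α v g, Hs α v g⁆, y * h = h * y) → y ∈ Ks α v g) ∧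
  (∀ y, (∀ k ∈ Ks α v g, y * k = k * y) → y ∈ Hs α v g) ∧
  (∀ h ∈ Hs α v g, ∀ k ∈ Ks α v g, h * k = k * h)

/-- P4. The element `k = (s t) ^ m` (conjugated by `g`) with `s`, `t` in the two different classes of `nb v`, in the image
of `α`. Its centralizer consists of products `y₁ y₂`, `y₁ ∈ std {s, t}` in a cyclic group `⟨z⟩` (B1/B2), and
`y₂ ∈ std (cl v)` (B3, the common neighbours of `{s, t}` are `cl v`). For the second claim: commutators are in `std (cl v)`.
For the third: `a = z ^ i₁ g₁`, `b = z ^ i₂ g₂`, `k = z ^ j`, `g₁`, `g₂` commute, and they are dependent by B2 (if `g₁` has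
finite order then its square is `1`... or it is `1` after a power): `g₁ ^ p g₂ ^ q = 1` with `(p, q) ≠ 0`; then
`a ^ (p j) b ^ (q j) = k ^ (i₁ p + i₂ q)`. -/
def S_P4 : Prop := ∀ (N : Type) [Group N] (α : N →* P1), Vir α → TFr N → ∀ v g, ∃ k ∈ Ks α v g, k ≠ 1 ∧
  (∀ a b, a * k = k * a → b * k = k * b → a * b * a⁻¹ * b⁻¹ ∈ Hs α v g) ∧
  (∀ a b, a * k = k * a → b * k = k * b → a * b = b * a → ∃ i j l : ℤ, (i ≠ 0 ∨ j ≠ 0) ∧ a ^ i * b ^ j = k ^ l)

/-- P5. `x' = g⁻¹ α x g ∈ std (nb v)`. Take `Mn T (y⁻¹ x' y)`, with `y ∈ std (nb v)`, `T ⊆ nb v` (`conj_std`, `Mn_sub`), `T` not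
empty. If `T` is contained in one class `cl v'` we are in the first case. Otherwise the common neighbours of `T` are
`cl v` and the centralizer of `y⁻¹ x' y` consists of products of an element of a cyclic group (B1) and of an element
of `std (cl v)` (B3), so commutators are in `std (cl v)`; `y` commutes with `std (cl v)`. -/
def S_P5 : Prop := ∀ (N : Type) [Group N] (α : N →* P1), Vir α → TFr N → ∀ v g, ∀ x ∈ Ks α v g, x ≠ 1 →
  (∃ (v' : Fin 5) (y : P1), (v' = v + 1 ∨ v = v' + 1) ∧ y ∈ std Γ1 B1 (nb v) ∧ x ∈ Hs α v' (g * y)) ∨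
  (∀ a b, a * x = x * a → b * x = x * b → a * b * a⁻¹ * b⁻¹ ∈ Hs α v g)

/-- P6. Similar: `x' = g⁻¹ α x g ∈ std (cl v)` with minimal support `T ⊆ cl v`, nonempty, so the common neighbours of `T` are
`nb v`; the centralizer consists of products of an element of a cyclic group (B2) and of an element of `std (nb v)`. -/
def S_P6 : Prop := ∀ (N : Type) [Group N] (α : N →* P1), Vir α → TFr N → ∀ v g, ∀ x ∈ Hs α v g, x ≠ 1 →
  ∀ a b, a * x = x * a → b * x = x * b → a * b * a⁻¹ * b⁻¹ ∈ Ks α v g

/-- P7. First: a nontrivial element of `Hs α v g` has minimal support `T ⊆ cl v`, not empty, so `T ⊆ cl v'` by `Mn_sub`.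
Second: `(s t) ^ m` with `s`, `t` in different classes of `nb v` has support `{s, t}`. Third: the first gives `v' = v''`; then
for `x ∈ Hs α v' y` with `x' = y⁻¹ α x y ∈ std (cl v')` of minimal support `T`, at least two elements, put
`t = y⁻¹ y₁ ∈ std (nb v)`, so `t⁻¹ x' t ∈ std (cl v')`. With `t' = er (cl v') t` we have `t'⁻¹ x' t' = t⁻¹ x' t`, so `t t'⁻¹`
commutes with `x'`, it is in `std (nb v)`, and by B3 it is a product of an element of `std (cl v')` and of one of
`std (nb v')`; apply `er (nb v)`, note that `nb v` and `nb v'` are disjoint: so `t t'⁻¹ ∈ std (cl v')`. (For `T ⊆ cl v'` use a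
conjugate.) -/
def S_P7 : Prop := ∀ (N : Type) [Group N] (α : N →* P1), Vir α → TFr N →
  (∀ v g v' g', Hs α v g ≤ Hs α v' g' → v = v') ∧
  (∀ v g v' g', ¬ Ks α v g ≤ Hs α v' g') ∧
  (∀ v v' v'' y y₁, (v' = v + 1 ∨ v = v' + 1) → (v'' = v + 1 ∨ v = v'' + 1) → y ∈ std Γ1 B1 (nb v) →
    y₁ ∈ std Γ1 B1 (nb v) → Hs α v' y = Hs α v'' y₁ → v' = v'' ∧ y⁻¹ * y₁ ∈ std Γ1 B1 (cl v'))

/-- P8. Paths which avoid the class `v`. Induction on `x⁻¹ x'` as a product of elements of the vertex groups in `nb v`
(`gind` or closure induction). For `s` in the class `v + 1`: one step `(v+1, x) → (v+1, x s)`. For `s` in the class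
`v - 1`: `(v+1, x) → (v+2, x) → (v+3, x) → (v+4, x) → (v+4, x s) → (v+3, x s) → (v+2, x s) → (v+1, x s)`. -/
def S_P8 : Prop := ∀ (v : Fin 5) (x x' : P1), x ∈ std Γ1 B1 (nb v) → x' ∈ std Γ1 B1 (nb v) →
  Relation.ReflTransGen (fun a b : Fin 5 × P1 => Stp a b ∧ a.1 ≠ v ∧ b.1 ≠ v) (v + 1, x) (v + 1, x')

/-- P9. `std (cl v ∪ nb v)` normalizes `std (cl v)` and `std (nb v)`. -/
def S_P9 : Prop := ∀ (N : Type) [Group N] (α : N →* P1) (v : Fin 5) (g p : P1), p ∈ std Γ1 B1 (stv v) →
  Hs α v (g * p) = Hs α v g ∧ Ks α v (g * p) = Ks α v g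

/-! ### the second side -/

/-- R1. Elements of full support: `n` with `β n = b (product of the elements of S) ^ m b⁻¹`. `Mn`: an element of `std T'`
has exponent `0` at the vertices not in `T'`, and exponents are invariant under conjugation. -/
def S_R1 : Prop := ∀ (V : Type) [Finite V] (Λ : SimpleGraph V) (N : Type) [Group N] (β : N →* P2 Λ), Vir β →
  ∀ b S, ∃ n : N, Mn Λ (B2 V) S (b⁻¹ * β n * b)

/-- R2. The centralizer of the commutator subgroup. Let `D = [As b S, As b S]`. It is not abelian (B2, B6 and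
`s ^ m`, `t ^ m` do not commute, by a homomorphism to the Heisenberg group or as in P1). It contains `x` with
`x' = b⁻¹ β x b = ∏_{j ≥ 2} [s₁ ^ m, s_j ^ m]`, `S = {s₁, ..., s_r}`; `Mn S x'`: if a conjugate of `x'` is in `std T'`, `T' ⊂ S`
proper, then by `conj_std` the conjugating element may be taken in `std S`; take the homomorphism `f` to the Heisenberg group
with `s₁ ↦ X`, `s_j ↦ Y`, other vertices `↦ 1` on `std S` (composed with `ret`/`er`): `f x'` is a nontrivial central
element, not in `⟨X⟩` nor in `⟨Y⟩`, but `f (std T')` is contained in `⟨X⟩` (if `s_j ∉ T'`) or in `⟨Y⟩` (if `s₁ ∉ T'`, use any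
`j`). If `y` commutes with `D`, then `b⁻¹ β y b = y₁ y₂` with `y₁ ∈ std S` commuting with `x'` and `y₂ ∈ std (pp S)` (B3), so
`y₁` commutes with the image of `D`; if `y₁ ≠ 1` then by B2 the centralizer of `y₁` in `std S` is contained in a cyclic
group, but `D` is not abelian. -/
def S_R2 : Prop := ∀ (V : Type) [Finite V] (Λ : SimpleGraph V) (N : Type) [Group N] (β : N →* P2 Λ), Vir β →
  ∀ b S, Ind Λ S → Two S → ∀ y, (∀ d ∈ ⁅As Λ β b S, As Λ β b S⁆, y * d = d * y) → y ∈ As Λ β b (pp Λ S)

/-- R3. Let `n` be as in R1 for `b₂`, `S₂`, `x' = b₂⁻¹ β n b₂`, `c = b₂⁻¹ b₁`. Then `c⁻¹ x' c ∈ std S₁`. So `S₂ ⊆ S₁` (`Mn_sub`).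
By `conj_std` for `x'' = c⁻¹ x' c ∈ std S₁`, `c⁻¹`: with `d = er S₁ c⁻¹ ∈ std S₁`, `d⁻¹ x'' d ∈ std S₂`. Put `t = c d`, so
`t⁻¹ x' t ∈ std S₂`, and `t' = er S₂ t`: `t'⁻¹ x' t' = t⁻¹ x' t`, so `t t'⁻¹` commutes with `x'`, so it is in
`std (S₂ ∪ pp S₂)` by B3; so `t` is too, and `b₂ = b₁ d t⁻¹`. -/
def S_R3 : Prop := ∀ (V : Type) [Finite V] (Λ : SimpleGraph V) (N : Type) [Group N] (β : N →* P2 Λ), Vir β →
  ∀ b₁ S₁ b₂ S₂, As Λ β b₂ S₂ ≤ As Λ β b₁ S₁ → (∀ s, S₂ s → S₁ s) ∧
    ∃ p₁ ∈ std Λ (B2 V) S₁, ∃ p₂ ∈ std Λ (B2 V) (fun v => S₂ v ∨ pp Λ S₂ v), b₂ = b₁ * p₁ * p₂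

/-- R4. Finite index. -/
def S_R4 : Prop := ∀ (V : Type) [Finite V] (Λ : SimpleGraph V) (N : Type) [Group N] (β : N →* P2 Λ), Vir β →
  ∀ b w, ∃ m : ℤ, 0 < m ∧ ∃ n : N, β n = b * gp Λ w m * b⁻¹

/-- R5. If `S` has at most one element then `std S` is abelian. -/
def S_R5 : Prop := ∀ (V : Type) [Finite V] (Λ : SimpleGraph V) (N : Type) [Group N] (β : N →* P2 Λ),
  Function.Injective β → ∀ b S, NA (As Λ β b S) → Two S

/-- R6. Two adjacent vertices in `S` give a free abelian group of rank two: powers of the generators (R4), the exponents. -/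
def S_R6 : Prop := ∀ (V : Type) [Finite V] (Λ : SimpleGraph V) (N : Type) [Group N] (β : N →* P2 Λ), Vir β →
  ∀ b S s t, Λ.Adj s t → S s → S t → ∃ a ∈ As Λ β b S, ∃ c ∈ As Λ β b S, a * c = c * a ∧
    ∀ i j : ℤ, a ^ i * c ^ j = 1 → i = 0 ∧ j = 0

/-- R7. `std T` and `std (pp T)` commute and have trivial intersection, and `std (T ∪ pp T)` normalizes `std T`. -/
def S_R7 : Prop := ∀ (V : Type) [Finite V] (Λ : SimpleGraph V) (N : Type) [Group N] (β : N →* P2 Λ),
  Function.Injective β → ∀ b T,
  (∀ n, n ∈ As Λ β b T → n ∈ As Λ β b (pp Λ T) → n = 1) ∧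
  (∀ x ∈ As Λ β b T, ∀ y ∈ As Λ β b (pp Λ T), x * y = y * x) ∧
  (∀ p ∈ std Λ (B2 V) (fun v => T v ∨ pp Λ T v), As Λ β (b * p) T = As Λ β b T)

/-- R8. The link lemma: let `n` be a conjugate of a power of the vertex `w`, such that the commutators of elements of
its centralizer are in `As c U`, and let `U` be contained in the link of `w`, `Two U`, and the common neighbours
of `U` be independent. Then the link of `w` is `U`. Proof: let `u` be adjacent to `w`, `u ∉ U`. If `u` is not adjacent to some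
`s ∈ U`, then `[u ^ m, s ^ m]` (conjugated by `b`, `m` from R4 such that both are in the image of `β`) is in
`c (std U) c⁻¹`, but by a homomorphism to the Heisenberg group (`u ↦ X`, `s ↦ Y`, others `↦ 1`; well defined as `u`, `s` are
not adjacent) this is impossible: `f (std U) ⊆ ⟨Y⟩`, and `f` of the commutator is central and nontrivial. Otherwise `u ∈ pp U`
and `w ∈ pp U` are adjacent. -/
def S_R8 : Prop := ∀ (V : Type) [Finite V] (Λ : SimpleGraph V) (N : Type) [Group N] (β : N →* P2 Λ), Vir β →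
  ∀ (w : V) (m : ℤ) (b c : P2 Λ) (n : N) (U : V → Prop), m ≠ 0 → β n = b * gp Λ w m * b⁻¹ →
  (∀ u, U u → Λ.Adj w u) → Ind Λ (pp Λ U) →
  (∀ a a', a * n = n * a → a' * n = n * a' → a * a' * a⁻¹ * a'⁻¹ ∈ As Λ β c U) →
  ∀ u, Λ.Adj w u → U u

/-- R9. If a conjugate of a nontrivial power of `w` is in `b (std S) b⁻¹` then `w ∈ S` (exponents). If moreover the link of
`w` is `pp S`, and `t⁻¹ w ^ m t ∈ std S` then `t ∈ std (S ∪ pp S)`: with `t' = er S t`, `t'⁻¹ w ^ m t' = t⁻¹ w ^ m t`, so
`t t'⁻¹` commutes with `w ^ m`, which has support `{w}`, so it is in `std ({w} ∪ link of w)` by B3. -/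
def S_R9 : Prop := ∀ (V : Type) [Finite V] (Λ : SimpleGraph V) (w : V) (m : ℤ) (S : V → Prop) (t : P2 Λ), m ≠ 0 →
  t⁻¹ * gp Λ w m * t ∈ std Λ (B2 V) S →
  S w ∧ ((∀ u, Λ.Adj w u ↔ pp Λ S u) → t ∈ std Λ (B2 V) (fun v => S v ∨ pp Λ S v))

/-- W. The function `ω g` is the exponent `c` of the first letter of `(Phi g).left` (an element of the free product of
copies of the vertex group of `w`, indexed by the cosets `Xv`) if this letter belongs to the base coset `x0`, and `0`
otherwise: `left = ofx x0 c * k'` with `fst k' ≠ some x0` (`strip_fst`, unique). (1) and (2): `Phi (w ^ M g).left =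
ofx x0 M * (Phi g).left`, and `Phi (g s).left = (Phi g).left` for `s` in another vertex group. (3):
`Phi (g w ^ j).left = (Phi g).left * ofx (ret g • x0) j`; the first letter changes only if `k' = 1` and
`ret g • x0 = x0`, that is `ret g ∈ Lv`; then `g = w ^ c * l` with `l ∈ std (link of w)`. (If `k'` has one letter, which may be
cancelled, then still the first letter at `x0` is unchanged.) See `GP.Act`: `Phi`, `Psi`, `Phi_of`, `Phi_self`, `fix0`,
`Lv`, `mk_fix`, `Lv_mem`; `GP.Len`, `R701.FreeProd`: `fst`, `lst`, `len`. -/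
def S_W : Prop := ∀ (V : Type) [Finite V] (Λ : SimpleGraph V) (w : V), ∃ ω : P2 Λ → ℤ,
  (∀ (M : ℤ) g, ω (gp Λ w M * g) = M + ω g) ∧
  (∀ g (s : V) (j : ℤ), s ≠ w → ω (g * gp Λ s j) = ω g) ∧
  (∀ g (j : ℤ), ω (g * gp Λ w j) ≠ ω g → ∃ i : ℤ, ∃ l ∈ std Λ (B2 V) (fun u => Λ.Adj w u), g = gp Λ w i * l)

/-! ### counting -/

/-- D1. Subgroups of finite index of free groups: `b₁ - 1 = index (s - 1)`. For example: homomorphisms `M → ℚ` are
the same as crossed homomorphisms `F → ℚ^(F/M)` modulo the inner ones (Shapiro in degree one), a crossed homomorphism of the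
free group is given by arbitrary values at the generators: dimension `s · index`; the inner ones have dimension
`index - 1`. Or use a rank formula from the library if there is one. -/
def S_D1 : Prop := ∀ (s : ℕ) (M : Subgroup (FreeGroup (Fin s))), M.index ≠ 0 →
  (b1 M : ℤ) - 1 = M.index * ((s : ℤ) - 1)

/-- D2. Torsion-free subgroups of finite index of free products of groups of order two. The same proof: a crossed
homomorphism to `X = ℚ^(F/M)` is given by vectors `x_i` with `s_i x_i = - x_i`, and as `s_i` acts on `F/M` without fixed points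
this space has dimension `index / 2`. -/
def S_D2 : Prop := ∀ (n : ℕ) (M : Subgroup (Monoid.CoprodI fun _ : Fin n => Multiplicative (ZMod 2))), M.index ≠ 0 →
  TFr M → 2 * ((b1 M : ℤ) - 1) = M.index * ((n : ℤ) - 2)

/-- D3. Standard subgroups of independent sets are free products. -/
def S_D3 : Prop := ∀ (V : Type) [Finite V] (Λ : SimpleGraph V) (S : V → Prop), Ind Λ S →
  Nonempty (std Λ (B2 V) S ≃* FreeGroup (Fin (Nat.card {v // S v})))

/-- D4. The same for groups of order two. -/
def S_D4 : Prop := ∀ (V : Type) [Finite V] (Λ : SimpleGraph V) (S : V → Prop), Ind Λ S →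
  Nonempty (std Λ (fun _ => Multiplicative (ZMod 2)) S ≃*
    Monoid.CoprodI fun _ : Fin (Nat.card {v // S v}) => Multiplicative (ZMod 2))

/-- D5. The mass formula. The set `P` of the subgroups `pf ι Qf j y = ι⁻¹ (y Q_j y⁻¹)` is, as a set with the action of `K` by
conjugation, isomorphic to the disjoint union of the coset spaces `Q / Q_j`. The sum over the `K`-orbits on `Q / Q_j`
of the index of `ι K ∩ y Q_j y⁻¹` in `y Q_j y⁻¹` is the index of `ι K` in `Q` (count the double cosets: the fibre of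
`K \ Q → K \ Q / Q_j` over the double coset of `y` has `[y Q_j y⁻¹ : ι K ∩ y Q_j y⁻¹]` elements). -/
def S_D5 : Prop := ∀ (K Q J : Type) [Group K] [Group Q] [Fintype J] (ι : K →* Q) (Qf : J → Subgroup Q)
  (β : Subgroup K → ℤ) (χ : J → ℤ), Function.Injective ι → ι.range.index ≠ 0 →
  (∀ (k : K) (L : Subgroup K), β (L.map (MulAut.conj k).toMonoidHom) = β L) →
  (∀ j y, β (pf ι Qf j y) = χ j * (ι.range.relIndex ((Qf j).map (MulAut.conj y).toMonoidHom) : ℤ)) →
  (∀ j y j' y', pf ι Qf j y = pf ι Qf j' y' → j = j' ∧ y⁻¹ * y' ∈ Qf j) →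
  ∑ᶠ O ∈ orb {L | ∃ j y, L = pf ι Qf j y}, vl β O = (∑ j, χ j) * (ι.range.index : ℤ)

end Pool.Agent.H815.QC
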