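import Pool.Agent.H105.QC.B1
import Pool.Agent.H92.QC.B2
import Pool.Agent.H349.QC.B3
import Pool.Agent.H703.QC.B5
import Pool.Agent.H25.QC.B6
import Pool.Agent.H828.QC.B7
import Pool.Agent.H782.QC.P1
import Pool.Agent.H727.QC.P3
import Pool.Agent.H137.QC.P4
import Pool.Agent.H59.QC.P5
import Pool.Agent.H404.QC.P6
import Pool.Agent.H200.QC.P7
import Pool.Agent.H945.QC.P8
import Pool.Agent.H100.QC.P9
import Pool.Agent.H314.QC.R1
import Pool.Agent.H134.QC.R2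
import Pool.Agent.H670.QC.R3
import Pool.Agent.H402.QC.R4
import Pool.Agent.H154.QC.R5
import Pool.Agent.H268.QC.R6
import Pool.Agent.H357.QC.R7
import Pool.Agent.H411.QC.R8
import Pool.Agent.H331.QC.R9
import Pool.Agent.H695.QC.W
import Pool.Agent.H922.QC.D1
import Pool.Agent.H718.QC.D2
import Pool.Agent.H448.QC.D3
import Pool.Agent.H457.QC.D4
import Pool.Agent.H342.QC.D5
import Pool.Agent.H990.QC.QCE1
import Pool.Agent.H407.QC.E2
import Pool.Agent.H886.QC.A1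
import Pool.Agent.H924.QC.A2
import Pool.Agent.H630.QC.A3
import Pool.Agent.H484.QC.A4
import Pool.Agent.H935.QC.A5
import Pool.Agent.H322.QC.A6
import Pool.Agent.H870.QC.C1
import Pool.Agent.H784.QC.C2
import Pool.Agent.H921.QC.CNT
import Pool.Agent.H94.QC.C3
import Pool.Agent.H612.QC.SUM
import Pool.Agent.H349.QC.L1
import Pool.Agent.H196.QC.L2
import Pool.Agent.H550.QC.L3
import Pool.Agent.H947.QC.L4
import Pool.Agent.H169.QC.FIN
import Pool.Agent.H815.QC.NC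

/-!
# Project QC (MP_c91b70_al): assembly
-/

set_option autoImplicit false

namespace Pool.Agent.H815.QC

theorem pB1 : S_B1 := Pool.Agent.H105.B1_proof
theorem pB2 : S_B2 := Pool.Agent.H92.QC.B2_proof pB1
theorem pB3 : S_B3 := Pool.Agent.H349.QC.B3_proof
theorem pB5 : S_B5 := Pool.Agent.H703.QC.B5_proof pB1
theorem pB6 : S_B6 := Pool.Agent.H25.QC.B6_proof
theorem pB7 : S_B7 := Pool.Agent.H828.QC.B7_proof
theorem pP1 : S_P1 := Pool.Agent.H782.QC.P1_proof pB2 pB3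
theorem pP3 : S_P3 := Pool.Agent.H727.QC.P3_proof pB2 pB3 pB6 pP1
theorem pP4 : S_P4 := Pool.Agent.H137.QC.P4_proof pB1 pB2 pB3
theorem pP5 : S_P5 := Pool.Agent.H59.QC.P5_proof pB1 pB2 pB3
theorem pP6 : S_P6 := Pool.Agent.H404.QC.P6_proof pB2 pB3
theorem pP7 : S_P7 := Pool.Agent.H200.QCP7.P7_proof pB2 pB3 pP1
theorem pP8 : S_P8 := Pool.Agent.H945.QC.P8_proof
theorem pP9 : S_P9 := Pool.Agent.H100.QC.P9_proof
theorem pR1 : S_R1 := Pool.Agent.H314.QC.R1_proof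
theorem pR2 : S_R2 := Pool.Agent.H134.QC.R2_proof pB2 pB3 pB6 pB7
theorem pR3 : S_R3 := Pool.Agent.H670.QC.R3_proof pB3 pR1
theorem pR4 : S_R4 := Pool.Agent.H402.QC.R4_proof
theorem pR5 : S_R5 := Pool.Agent.H154.QC.R5_proof
theorem pR6 : S_R6 := Pool.Agent.H268.QC.R6_proof pR4
theorem pR7 : S_R7 := Pool.Agent.H357.QC.R7_proof
theorem pR8 : S_R8 := Pool.Agent.H411.QC.R8_proof pR4
theorem pR9 : S_R9 := Pool.Agent.H331.QC.R9_proof pB3
theorem pW : S_W := Pool.Agent.H695.QC.W_proof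
theorem pD1 : S_D1 := Pool.Agent.H922.QC.D1_proof
theorem pD2 : S_D2 := Pool.Agent.H718.QCD2.D2_proof
theorem pD3 : S_D3 := Pool.Agent.H448.QC.D3_proof
theorem pD4 : S_D4 := Pool.Agent.H457.QC.D4_proof
theorem pD5 : S_D5 := Pool.Agent.H342.QC.D5_proof
theorem pE1 : S_E1 := Pool.Agent.H990.QC.E1_proof
theorem pE2 : S_E2 := Pool.Agent.H407.QCE2.E2_proof
theorem pA1 : S_A1 := Pool.Agent.H886.QCA1.A1_proof
theorem pA2 : S_A2 := Pool.Agent.H924.QC.A2_proof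
theorem pA3 : S_A3 := Pool.Agent.H630.QC.A3_proof
theorem pA4 : S_A4 := Pool.Agent.H484.QC.A4_proof
theorem pA5 : S_A5 := Pool.Agent.H935.QC.A5.A5_proof
theorem pQI : S_QI := Pool.Agent.H322.QC.A6_proof pA1 pA2 pA3 pA4 pA5
theorem pRC : S_RC := RC pB3 pB5 pB6 pB7 pP1 pP3 pP4 pR2 pR5 pR6 pR7
theorem pCUT : S_CUT := CUT pP7 pP8 pP9 pB7 pR3 pR4 pR7 pW pRC
theorem pC1 : S_C1 := Pool.Agent.H870.QC.C1_proof
theorem pC2 : S_C2 := Pool.Agent.H784.QC.C2_proof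
theorem pCNT : S_CNT := Pool.Agent.H921.QC.CNT_proof pC1 pC2 pD1 pD2 pD5
theorem pC3 : S_C3 := Pool.Agent.H94.QC.C3_proof
theorem pSUM : S_SUM := Pool.Agent.H612.QC.SUM_proof
theorem pL1 : S_L1 := Pool.Agent.H349.QC.L1_proof pRC pB7 pP6 pR3 pR4 pR7 pR8 pR9
theorem pL2 : S_L2 := Pool.Agent.H196.QC.L2_proof pCUT pL1 pB7 pP5 pR4 pR7 pR8 pR9
theorem pL3 : S_L3 := Pool.Agent.H550.QC.L3_proof pL1
theorem pL4 : S_L4 := Pool.Agent.H947.QC.L4_proof pR3 pR4 pR7 pR9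
theorem pNC : S_NC := NC pRC pB7 pP7 pD3 pD4 pCNT pC3 pSUM pL2 pL3 pL4
theorem pFIN : S_FIN := Pool.Agent.H169.QC.FIN_proof

end Pool.Agent.H815.QC
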