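import Pool.Agent.H815.QC.RC

/-!
# Project QC: no vertex has the link `S`
-/

set_option autoImplicit false

namespace Pool.Agent.H815.QC

open Pool.Agent.Y110.FJ Pool.Agent.T2H65.GP
open scoped commutatorElement

/-! ### identities in groups -/

theorem gen1 {G : Type} [Group G] {g l x σ : G} (hσ : σ = (g * l)⁻¹ * x * (g * l))
    (h : g * (l * σ * l⁻¹) = l * σ * l⁻¹ * g) : x = l * σ * l⁻¹ := by
  have h5 : x = g * (l * σ * l⁻¹) * g⁻¹ := by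
    rw [hσ]
    group
  rw [h5, h, mul_inv_cancel_right]

theorem gen2 {G : Type} [Group G] (x : G) : (1 : G)⁻¹ * x * 1 = x := by group

theorem gen3 {G : Type} [Group G] (a g x : G) : (a * g)⁻¹ * x * (a * g) = g⁻¹ * (a⁻¹ * x * a) * g := by group

theorem gen4 {G : Type} [Group G] {a b p₁ p₂ : G} (h : b = a * p₁ * p₂) : b * p₂⁻¹ = a * p₁ := by
  rw [h, mul_inv_cancel_right]

theorem gen5 {G : Type} [Group G] {x y : G} (h : x = 1 * y * 1⁻¹) : x = y := by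
  rw [h]
  group

section

variable {V : Type} {Λ : SimpleGraph V} {N : Type} [Group N]

theorem mem_As {β : N →* P2 Λ} {b : P2 Λ} {S : V → Prop} {n : N} : n ∈ As Λ β b S ↔ b⁻¹ * β n * b ∈ std Λ (B2 V) S :=
  mem_pb

theorem mem_Hs {α : N →* P1} {v : Fin 5} {g : P1} {n : N} : n ∈ Hs α v g ↔ g⁻¹ * α n * g ∈ std Γ1 B1 (cl v) := mem_pb

theorem mem_Ks {α : N →* P1} {v : Fin 5} {g : P1} {n : N} : n ∈ Ks α v g ↔ g⁻¹ * α n * g ∈ std Γ1 B1 (nb v) := mem_pb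

/-- conjugation of `β` -/
noncomputable def cjh (β : N →* P2 Λ) (b : P2 Λ) : N →* P2 Λ := (MulAut.conj b⁻¹).toMonoidHom.comp β

theorem cjh_apply (β : N →* P2 Λ) (b : P2 Λ) (n : N) : cjh β b n = b⁻¹ * β n * b := by
  show b⁻¹ * β n * (b⁻¹)⁻¹ = _
  rw [inv_inv]

theorem As_cjh (β : N →* P2 Λ) (b c : P2 Λ) (S : V → Prop) : As Λ (cjh β b) c S = As Λ β (b * c) S := by
  ext n
  have h5 : c⁻¹ * cjh β b n * c = (b * c)⁻¹ * β n * (b * c) := by
    rw [cjh_apply]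
    exact (gen3 b c (β n)).symm
  refine ⟨fun h => mem_As.2 ?_, fun h => mem_As.2 ?_⟩
  · rw [← h5]
    exact mem_As.1 h
  · rw [h5]
    exact mem_As.1 h

theorem Vir_cjh {β : N →* P2 Λ} (h : Vir β) (b : P2 Λ) : Vir (cjh β b) := by
  refine ⟨(MulAut.conj b⁻¹).injective.comp h.1, ?_⟩
  have h1 : (cjh β b).range = β.range.map (MulAut.conj b⁻¹).toMonoidHom := by
    unfold cjh
    rw [MonoidHom.range_comp]
  rw [h1]
  have h2 := h.2
  refine ⟨?_⟩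
  have h3 : (β.range.map (MulAut.conj b⁻¹).toMonoidHom).index = β.range.index :=
    Subgroup.index_map_of_bijective (MulAut.conj b⁻¹).bijective _
  rw [h3]
  exact h2.index_ne_zero

theorem gp_mem {w : V} {S : V → Prop} (h : S w) (m : ℤ) : gp Λ w m ∈ std Λ (B2 V) S :=
  vg_le_std Λ (B2 V) h ⟨_, rfl⟩

theorem gp_comm {w : V} (i : ℤ) {y : P2 Λ} (hy : y ∈ std Λ (B2 V) (fun u => Λ.Adj w u)) :
    gp Λ w i * y = y * gp Λ w i := by
  have h1 : gp Λ w i ∈ std Λ (B2 V) (fun u => u = w) := gp_mem (S := fun u => u = w) rfl i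
  exact std_comm Λ (B2 V) (T := fun u => u = w) (T' := fun u => Λ.Adj w u) (fun t s ht hs => by rw [ht]; exact hs)
    (x := gp Λ w i) (y := y) h1 hy

theorem As_small {β : N →* P2 Λ} {w : V} {i : ℤ} {l : P2 Λ} {U S : V → Prop}
    (hl : l ∈ std Λ (B2 V) (fun u => Λ.Adj w u)) (hU : ∀ u, U u → Λ.Adj w u) (hS : ∀ u, Λ.Adj w u → S u) :
    As Λ β (gp Λ w i * l) U ≤ As Λ β 1 S := by
  intro y hy
  refine mem_As.2 ?_
  have h1 : (gp Λ w i * l)⁻¹ * β y * (gp Λ w i * l) ∈ std Λ (B2 V) (fun u => Λ.Adj w u) :=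
    std_mono Λ (B2 V) hU (mem_As.1 hy)
  obtain ⟨σ, hσ⟩ : ∃ σ, σ = (gp Λ w i * l)⁻¹ * β y * (gp Λ w i * l) := ⟨_, rfl⟩
  rw [← hσ] at h1
  have h2 : l * σ * l⁻¹ ∈ std Λ (B2 V) (fun u => Λ.Adj w u) := mul_mem (mul_mem hl h1) (inv_mem hl)
  have h4 : β y = l * σ * l⁻¹ := gen1 hσ (gp_comm i h2)
  rw [gen2, h4]
  exact std_mono Λ (B2 V) hS h2

end

/-- the cut lemma for `b = 1` -/
theorem cut_one (hP7 : S_P7) (hP8 : S_P8) (hP9 : S_P9) (hB7 : S_B7) (hR3 : S_R3) (hR4 : S_R4) (hR7 : S_R7) (hW : S_W)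
    (hRC : S_RC) (N : Type) [Group N] (V : Type) [Finite V] (Λ : SimpleGraph V) (α : N →* P1) (β : N →* P2 Λ)
    (hα : Vir α) (hβ : Vir β) (v0 : Fin 5) (S : V → Prop) (hH : Hs α v0 1 = As Λ β 1 S)
    (hK : Ks α v0 1 = As Λ β 1 (pp Λ S)) (w : V) (hw : pp Λ S w) (hL : ∀ u, Λ.Adj w u ↔ S u) : False := by
  have htf : TFr N := hB7 V Λ N β hβ.1
  obtain ⟨h71, h72, _⟩ := hP7 N α hα htf
  obtain ⟨ω, hω1, hω2, hω3⟩ := hW V Λ w
  -- representatives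
  obtain ⟨rep, hrep⟩ : ∃ rep : Fin 5 × P1 → (V → Prop) → P2 Λ → Prop, rep = fun p S₁ b₁ =>
    Hs α p.1 p.2 = As Λ β b₁ S₁ ∧ Ks α p.1 p.2 = As Λ β b₁ (pp Λ S₁) := ⟨_, rfl⟩
  have hex : ∀ p, ∃ S₁ b₁, rep p S₁ b₁ := by
    intro p
    obtain ⟨S₁, b₁, _, h1, h2⟩ := hRC N V Λ α β hα hβ p.1 p.2
    rw [hrep]
    exact ⟨S₁, b₁, h1, h2⟩
  -- an element `w ^ i * l` conjugates into the stabilizer
  have hsm : ∀ (i : ℤ) (l : P2 Λ) (U : V → Prop), l ∈ std Λ (B2 V) (fun u => Λ.Adj w u) → (∀ u, U u → Λ.Adj w u) →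
      As Λ β (gp Λ w i * l) U ≤ As Λ β 1 S := fun i l U hl hU => As_small hl hU fun u hu => (hL u).1 hu
  -- the wall function is constant on the cosets
  have hconst : ∀ p S₁ b₁, p.1 ≠ v0 → rep p S₁ b₁ → ∀ q ∈ std Λ (B2 V) (fun v => S₁ v ∨ pp Λ S₁ v),
      ω (b₁ * q) = ω b₁ := by
    intro p S₁ b₁ hp hr q hq
    rw [hrep] at hr
    obtain ⟨hr1, hr2⟩ := hr
    obtain ⟨T, hT⟩ : ∃ T : V → Prop, T = fun v => S₁ v ∨ pp Λ S₁ v := ⟨_, rfl⟩
    rw [← hT] at hq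
    let H : Subgroup (P2 Λ) :=
      { carrier := {q | q ∈ std Λ (B2 V) T ∧ ∀ r ∈ std Λ (B2 V) T, ω (b₁ * r * q) = ω (b₁ * r)}
        mul_mem' := by
          rintro x y ⟨hx1, hx2⟩ ⟨hy1, hy2⟩
          refine ⟨mul_mem hx1 hy1, fun r hr => ?_⟩
          have h1 := hy2 (r * x) (mul_mem hr hx1)
          rw [← mul_assoc] at h1
          rw [← mul_assoc, h1, hx2 r hr]
        one_mem' := ⟨one_mem _, fun r _ => by rw [mul_one]⟩
        inv_mem' := by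
          rintro x ⟨hx1, hx2⟩
          refine ⟨inv_mem hx1, fun r hr => ?_⟩
          have h1 := hx2 (r * x⁻¹) (mul_mem hr (inv_mem hx1))
          rw [← mul_assoc, inv_mul_cancel_right] at h1
          exact h1.symm }
    have hle : std Λ (B2 V) T ≤ H := by
      refine std_le Λ (B2 V) fun s hs => ?_
      rintro _ ⟨a, rfl⟩
      obtain ⟨j, hj⟩ : ∃ j : ℤ, GrP.of Λ (B2 V) s a = gp Λ s j := ⟨Multiplicative.toAdd a, rfl⟩
      rw [hj]
      refine ⟨gp_mem hs j, fun r hr => ?_⟩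
      by_cases hsw : s = w
      · subst hsw
        by_contra hne
        obtain ⟨i, l, hl, he⟩ := hω3 _ j hne
        have hTr : ∀ u, (fun v => S₁ v ∨ pp Λ S₁ v) u → T u := fun u hu => by rw [hT]; exact hu
        have hr' : r ∈ std Λ (B2 V) (fun v => S₁ v ∨ pp Λ S₁ v) := by rw [← hT]; exact hr
        rw [hT] at hs
        rcases hs with hs | hs
        · -- `w ∈ S₁`
          have h1 : As Λ β (b₁ * r) (pp Λ S₁) = As Λ β b₁ (pp Λ S₁) := by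
            refine (hR7 V Λ N β hβ.1 b₁ (pp Λ S₁)).2.2 r ?_
            refine std_mono Λ (B2 V) (fun u hu => ?_) hr'
            rcases hu with hu | hu
            · exact Or.inr fun t ht => (ht u hu).symm
            · exact Or.inl hu
          have h2 := hsm i l (pp Λ S₁) hl fun u hu => (hu _ hs).symm
          rw [← he, h1, ← hr2, ← hH] at h2
          exact h72 _ _ _ _ h2
        · -- `w ∈ pp S₁`
          have h1 : As Λ β (b₁ * r) S₁ = As Λ β b₁ S₁ := (hR7 V Λ N β hβ.1 b₁ S₁).2.2 r hr'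
          have h2 := hsm i l S₁ hl fun u hu => hs u hu
          rw [← he, h1, ← hr1, ← hH] at h2
          exact hp (h71 _ _ _ _ h2)
      · exact hω2 _ s j hsw
    have h1 := (hle hq).2 1 (one_mem _)
    rwa [mul_one] at h1
  -- uniqueness
  have huniq : ∀ p S₁ b₁ S₂ b₂, p.1 ≠ v0 → rep p S₁ b₁ → rep p S₂ b₂ → ω b₁ = ω b₂ := by
    intro p S₁ b₁ S₂ b₂ hp hr1 hr2
    have hc := hconst p S₁ b₁ hp hr1
    rw [hrep] at hr1 hr2
    have h1 : As Λ β b₂ S₂ ≤ As Λ β b₁ S₁ := by rw [← hr1.1, ← hr2.1]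
    have h2 : As Λ β b₁ S₁ ≤ As Λ β b₂ S₂ := by rw [← hr1.1, ← hr2.1]
    obtain ⟨h3, p₁, hp₁, p₂, hp₂, he⟩ := hR3 V Λ N β hβ _ _ _ _ h1
    obtain ⟨h4, _⟩ := hR3 V Λ N β hβ _ _ _ _ h2
    have h5 : S₁ = S₂ := funext fun u => propext ⟨h4 u, h3 u⟩
    subst h5
    rw [he, mul_assoc]
    exact (hc _ (mul_mem (std_mono Λ (B2 V) (fun u hu => Or.inl hu) hp₁) hp₂)).symm
  -- steps
  have hstep : ∀ p p' S₁ b₁ S₂ b₂, Stp p p' → p.1 ≠ v0 → p'.1 ≠ v0 → rep p S₁ b₁ → rep p' S₂ b₂ → ω b₁ = ω b₂ := by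
    intro p p' S₁ b₁ S₂ b₂ hst hp hp' hr1 hr2
    rcases hst with ⟨he, hadj⟩ | ⟨he, hcos⟩
    · have hc1 := hconst p S₁ b₁ hp hr1
      have hc2 := hconst p' S₂ b₂ hp' hr2
      rw [hrep] at hr1 hr2
      have h1 : As Λ β b₂ S₂ ≤ As Λ β b₁ (pp Λ S₁) := by
        rw [← hr1.2, ← hr2.1, he]
        intro y hy
        refine mem_Ks.2 (std_mono Γ1 B1 (fun a ha => ?_) (mem_Hs.1 hy))
        have ha' : a.1 = p'.1 := ha
        show a.1 = p.1 + 1 ∨ p.1 = a.1 + 1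
        rw [ha']
        exact hadj
      obtain ⟨h3, p₁, hp₁, p₂, hp₂, he2⟩ := hR3 V Λ N β hβ _ _ _ _ h1
      have h4 := hc1 p₁ (std_mono Λ (B2 V) (fun u hu => Or.inr hu) hp₁)
      have h5 := hc2 p₂⁻¹ (inv_mem hp₂)
      rw [← h4, ← h5, gen4 he2]
    · refine huniq p S₁ b₁ S₂ b₂ hp hr1 ?_
      have h1 := hP9 N α p.1 p.2 (p.2⁻¹ * p'.2) hcos
      rw [mul_inv_cancel_left] at h1
      rw [hrep] at hr2 ⊢
      refine ⟨?_, ?_⟩
      · rw [← h1.1, ← he]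
        exact hr2.1
      · rw [← h1.2, ← he]
        exact hr2.2
  -- the element
  obtain ⟨m, hm, n, hn⟩ := hR4 V Λ N β hβ 1 w
  have hn' : β n = gp Λ w m := gen5 hn
  have hx : α n ∈ std Γ1 B1 (nb v0) := by
    have h1 : n ∈ Ks α v0 1 := by
      rw [hK]
      refine mem_As.2 ?_
      rw [hn', gen2]
      exact gp_mem hw m
    have h3 := mem_Ks.1 h1
    rwa [gen2] at h3
  have hchain := hP8 v0 1 (α n) (one_mem _) hx
  obtain ⟨S', b', hr⟩ := hex (v0 + 1, 1)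
  have hne : v0 + 1 ≠ v0 := by
    have : ∀ x : Fin 5, x + 1 ≠ x := by decide
    exact this v0
  have hall : ∀ p', Relation.ReflTransGen (fun a b : Fin 5 × P1 => Stp a b ∧ a.1 ≠ v0 ∧ b.1 ≠ v0) (v0 + 1, 1) p' →
      ∀ S₂ b₂, rep p' S₂ b₂ → ω b' = ω b₂ := by
    intro p' hp'
    induction hp' with
    | refl => exact fun S₂ b₂ h => huniq _ _ _ _ _ hne hr h
    | tail _ hs ih =>
      intro S₂ b₂ h
      obtain ⟨S₃, b₃, h3⟩ := hex _
      exact (ih S₃ b₃ h3).trans (hstep _ _ _ _ _ _ hs.1 hs.2.1 hs.2.2 h3 h)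
  have hr2 : rep (v0 + 1, α n) S' (β n * b') := by
    rw [hrep] at hr ⊢
    obtain ⟨h1, h2⟩ := hr
    have e1 : ∀ (y : N) (g : P1) (T : V1 → Prop), y ∈ pb Γ1 B1 α (α n * g) T ↔ n⁻¹ * y * n ∈ pb Γ1 B1 α g T := by
      intro y g T
      have h5 : (α n * g)⁻¹ * α y * (α n * g) = g⁻¹ * α (n⁻¹ * y * n) * g := by
        rw [map_mul, map_mul, map_inv]
        exact gen3 _ _ _
      refine ⟨fun h => mem_pb.2 ?_, fun h => mem_pb.2 ?_⟩
      · rw [← h5]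
        exact mem_pb.1 h
      · rw [h5]
        exact mem_pb.1 h
    have e2 : ∀ (y : N) (g : P2 Λ) (T : V → Prop), y ∈ As Λ β (β n * g) T ↔ n⁻¹ * y * n ∈ As Λ β g T := by
      intro y g T
      have h5 : (β n * g)⁻¹ * β y * (β n * g) = g⁻¹ * β (n⁻¹ * y * n) * g := by
        rw [map_mul, map_mul, map_inv]
        exact gen3 _ _ _
      refine ⟨fun h => mem_As.2 ?_, fun h => mem_As.2 ?_⟩
      · rw [← h5]
        exact mem_As.1 h
      · rw [h5]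
        exact mem_As.1 h
    constructor
    · ext y
      rw [e2, ← h1]
      have h3 := e1 y 1 (cl (v0 + 1))
      rw [mul_one] at h3
      exact h3
    · ext y
      rw [e2, ← h2]
      have h3 := e1 y 1 (nb (v0 + 1))
      rw [mul_one] at h3
      exact h3
  have h1 := hall _ hchain _ _ hr2
  rw [hn', hω1] at h1
  omega

/-- the cut lemma -/
theorem cut (hP7 : S_P7) (hP8 : S_P8) (hP9 : S_P9) (hB7 : S_B7) (hR3 : S_R3) (hR4 : S_R4) (hR7 : S_R7) (hW : S_W)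
    (hRC : S_RC) (N : Type) [Group N] (V : Type) [Finite V] (Λ : SimpleGraph V) (α : N →* P1) (β : N →* P2 Λ)
    (hα : Vir α) (hβ : Vir β) (v0 : Fin 5) (S : V → Prop) (b : P2 Λ) (hH : Hs α v0 1 = As Λ β b S)
    (hK : Ks α v0 1 = As Λ β b (pp Λ S)) (w : V) (hw : pp Λ S w) (hL : ∀ u, Λ.Adj w u ↔ S u) : False := by
  refine cut_one hP7 hP8 hP9 hB7 hR3 hR4 hR7 hW hRC N V Λ α (cjh β b) hα (Vir_cjh hβ b) v0 S ?_ ?_ w hw hL
  · rw [As_cjh, mul_one]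
    exact hH
  · rw [As_cjh, mul_one]
    exact hK

end Pool.Agent.H815.QC
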