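import Pool.Graph.R_pool_sql_team_seeded_707910d6.T2H65.GP.Min

/-!
# Project QC (MP_c91b70_al): a right-angled Coxeter group which is quasi-isometric, but not commensurable, to a
right-angled Artin group. Definitions.
-/

set_option autoImplicit false

namespace Pool.Agent.H815.QC

open Pool.Agent.Y110.FJ Pool.Agent.T2H65.GP

/-- the common neighbours of the elements of `S` -/
def pp {V : Type} (Λ : SimpleGraph V) (S : V → Prop) : V → Prop := fun v => ∀ s, S s → Λ.Adj v s

/-- independent sets of vertices -/
def Ind {V : Type} (Λ : SimpleGraph V) (S : V → Prop) : Prop := ∀ s t, S s → S t → ¬ Λ.Adj s t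

/-- at least two elements -/
def Two {V : Type} (S : V → Prop) : Prop := ∃ s t, S s ∧ S t ∧ s ≠ t

/-- the subgroup is not abelian -/
def NA {N : Type} [Group N] (H : Subgroup N) : Prop := ∃ a ∈ H, ∃ b ∈ H, a * b ≠ b * a

/-- centralizers in `H` of nontrivial elements of `H` are contained in cyclic groups -/
def CC {N : Type} [Group N] (H : Subgroup N) : Prop :=
  ∀ d ∈ H, d ≠ 1 → ∃ z : N, ∀ y ∈ H, y * d = d * y → y ∈ Subgroup.zpowers z

/-- torsion-free groups -/
def TFr (N : Type) [Group N] : Prop := ∀ n : N, n ≠ 1 → ∀ k : ℕ, 0 < k → n ^ k ≠ 1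

/-- injective homomorphism with image of finite index -/
def Vir {N G : Type} [Group N] [Group G] (α : N →* G) : Prop := Function.Injective α ∧ α.range.FiniteIndex

/-- the elements `n` for which `g⁻¹ (α n) g` is in the standard subgroup of `T` -/
noncomputable def pb {V : Type} (Λ : SimpleGraph V) (B : V → Type) [∀ v, Group (B v)] {N : Type} [Group N]
    (α : N →* GrP Λ B) (g : GrP Λ B) (T : V → Prop) : Subgroup N :=
  (std Λ B T).comap ((MulAut.conj g⁻¹).toMonoidHom.comp α)

theorem mem_pb {V : Type} {Λ : SimpleGraph V} {B : V → Type} [∀ v, Group (B v)] {N : Type} [Group N]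
    {α : N →* GrP Λ B} {g : GrP Λ B} {T : V → Prop} {n : N} : n ∈ pb Λ B α g T ↔ g⁻¹ * α n * g ∈ std Λ B T := by
  show g⁻¹ * α n * (g⁻¹)⁻¹ ∈ std Λ B T ↔ g⁻¹ * α n * g ∈ std Λ B T
  rw [inv_inv]

/-! ### the first side: the right-angled Coxeter group of the blow-up of the pentagon -/

/-- five classes of three vertices -/
abbrev V1 : Type := Fin 5 × Fin 3

/-- the pentagon with tripled vertices -/
def Γ1 : SimpleGraph V1 where
  Adj a b := b.1 = a.1 + 1 ∨ a.1 = b.1 + 1
  symm := ⟨fun _ _ h => h.symm⟩
  loopless := ⟨fun a h => by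
    have : ∀ x : Fin 5, ¬ (x = x + 1 ∨ x = x + 1) := by decide
    exact this _ h⟩

/-- the vertex groups of order two -/
abbrev B1 : V1 → Type := fun _ => Multiplicative (ZMod 2)

/-- the right-angled Coxeter group -/
abbrev P1 : Type := GrP Γ1 B1

/-- the class of vertices -/
def cl (v : Fin 5) : V1 → Prop := fun a => a.1 = v

/-- the neighbours of a class -/
def nb (v : Fin 5) : V1 → Prop := fun a => a.1 = v + 1 ∨ v = a.1 + 1

/-- the star of a class -/
def stv (v : Fin 5) : V1 → Prop := fun a => cl v a ∨ nb v a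

/-- the small factor -/
noncomputable def Hs {N : Type} [Group N] (α : N →* P1) (v : Fin 5) (g : P1) : Subgroup N := pb Γ1 B1 α g (cl v)

/-- the large factor -/
noncomputable def Ks {N : Type} [Group N] (α : N →* P1) (v : Fin 5) (g : P1) : Subgroup N := pb Γ1 B1 α g (nb v)

/-- steps between the pairs (class, element): change the class to an adjacent class, or the element in the coset of the
star -/
def Stp (a b : Fin 5 × P1) : Prop :=
  (b.2 = a.2 ∧ (b.1 = a.1 + 1 ∨ a.1 = b.1 + 1)) ∨ (b.1 = a.1 ∧ a.2⁻¹ * b.2 ∈ std Γ1 B1 (stv a.1))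

/-! ### the second side: right-angled Artin groups -/

/-- infinite cyclic vertex groups -/
abbrev B2 (V : Type) : V → Type := fun _ => Multiplicative ℤ

/-- the right-angled Artin group -/
abbrev P2 {V : Type} (Λ : SimpleGraph V) : Type := GrP Λ (B2 V)

/-- the generator to the power `m` -/
noncomputable def gp {V : Type} (Λ : SimpleGraph V) (w : V) (m : ℤ) : P2 Λ := GrP.of Λ (B2 V) w (Multiplicative.ofAdd m)

/-- the subgroup of `N` -/
noncomputable def As {V : Type} (Λ : SimpleGraph V) {N : Type} [Group N] (β : N →* P2 Λ) (b : P2 Λ) (S : V → Prop) :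
    Subgroup N := pb Λ (B2 V) β b S

/-- the sets of vertices which correspond to the classes -/
structure Cl2 {V : Type} (Λ : SimpleGraph V) (S : V → Prop) : Prop where
  ind : Ind Λ S
  two : Two S
  ind' : Ind Λ (pp Λ S)
  two' : Two (pp Λ S)
  clo : ∀ v, pp Λ (pp Λ S) v → S v

/-! ### Betti numbers -/

/-- the first Betti number -/
noncomputable def b1 (L : Type) [Group L] : ℕ := Module.finrank ℚ (Additive L →+ ℚ)

/-- the preimage of `y Q y⁻¹` -/
noncomputable def pf {K Q J : Type} [Group K] [Group Q] (ι : K →* Q) (Qf : J → Subgroup Q) (j : J) (y : Q) :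
    Subgroup K := ((Qf j).map (MulAut.conj y).toMonoidHom).comap ι

/-- the conjugacy classes in the set `P` of subgroups of `K` -/
def orb {K : Type} [Group K] (P : Set (Subgroup K)) : Set (Set (Subgroup K)) :=
  {O | ∃ L ∈ P, O = {L' | ∃ k : K, L' = L.map (MulAut.conj k).toMonoidHom}}

open Classical in
/-- the value of a function on a class -/
noncomputable def vl {K : Type} [Group K] (β : Subgroup K → ℤ) (O : Set (Subgroup K)) : ℤ :=
  if h : O.Nonempty then β h.some else 0

end Pool.Agent.H815.QC
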