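import Pool.Agent.H815.QC.Stm3
import Pool.Agent.H815.QC.Cut

/-!
# Project QC: assembly of the non-commensurability
-/

set_option autoImplicit false

namespace Pool.Agent.H815.QC

open Pool.Agent.Y110.FJ Pool.Agent.T2H65.GP

theorem CUT (hP7 : S_P7) (hP8 : S_P8) (hP9 : S_P9) (hB7 : S_B7) (hR3 : S_R3) (hR4 : S_R4) (hR7 : S_R7) (hW : S_W)
    (hRC : S_RC) : S_CUT := by
  intro N _ V _ Λ α β S hB w hw hL
  exact cut_one hP7 hP8 hP9 hB7 hR3 hR4 hR7 hW hRC N V Λ α β hB.va hB.vb 0 S hB.hH hB.hK w hw hL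

/-- the two classes -/
abbrev J1 : Type := {v' : Fin 5 // v' = 0 + 1 ∨ 0 = v' + 1}

theorem card_J1 : Fintype.card J1 = 2 := by decide

theorem card_cl (v : Fin 5) : Nat.card {a : V1 // cl v a} = 3 := by
  have h : ∀ v : Fin 5, Fintype.card {a : Fin 5 × Fin 3 // a.1 = v} = 3 := by decide
  have h2 := h v
  rw [← Nat.card_eq_fintype_card] at h2
  exact h2

theorem card_nb : Nat.card {a : V1 // nb 0 a} = 6 := by
  have h : Fintype.card {a : Fin 5 × Fin 3 // a.1 = 0 + 1 ∨ 0 = a.1 + 1} = 6 := by decide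
  rw [← Nat.card_eq_fintype_card] at h
  exact h

theorem ind_cl (v : Fin 5) : Ind Γ1 (cl v) := by
  intro s t hs ht h
  have hs' : s.1 = v := hs
  have ht' : t.1 = v := ht
  have h' : t.1 = s.1 + 1 ∨ s.1 = t.1 + 1 := h
  rw [hs', ht'] at h'
  have : ∀ x : Fin 5, ¬ (x = x + 1 ∨ x = x + 1) := by decide
  exact this v h'

theorem ind_nb (v : Fin 5) : Ind Γ1 (nb v) := by
  intro s t hs ht h
  have hs' : s.1 = v + 1 ∨ v = s.1 + 1 := hs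
  have ht' : t.1 = v + 1 ∨ v = t.1 + 1 := ht
  have h' : t.1 = s.1 + 1 ∨ s.1 = t.1 + 1 := h
  have : ∀ x y v : Fin 5, (x = v + 1 ∨ v = x + 1) → (y = v + 1 ∨ v = y + 1) → ¬ (y = x + 1 ∨ x = y + 1) := by decide
  exact this s.1 t.1 v hs' ht' h'

theorem subOf {G F : Type} [Group G] [Group F] {H R : Subgroup G} (h : H ≤ R) (he : Nonempty (H ≃* F)) :
    Nonempty (H.subgroupOf R ≃* F) := by
  obtain ⟨e⟩ := he
  exact ⟨(Subgroup.subgroupOfEquivOfLe h).trans e⟩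

theorem cl_le {v' : Fin 5} (h : v' = 0 + 1 ∨ 0 = v' + 1) (a : V1) (ha : cl v' a) : nb 0 a := by
  have ha' : a.1 = v' := ha
  show a.1 = 0 + 1 ∨ 0 = a.1 + 1
  rw [ha']
  exact h

theorem Hs_le_Ks {N : Type} [Group N] {α : N →* P1} {v' : Fin 5} {y : P1} (h : v' = 0 + 1 ∨ 0 = v' + 1)
    (hy : y ∈ std Γ1 B1 (nb 0)) : Hs α v' y ≤ Ks α 0 1 := by
  intro n hn
  refine mem_Ks.2 ?_
  rw [gen2]
  have h1 : y⁻¹ * α n * y ∈ std Γ1 B1 (nb 0) := std_mono Γ1 B1 (fun a ha => cl_le h a ha) (mem_Hs.1 hn)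
  obtain ⟨σ, hσ⟩ : ∃ σ, σ = y⁻¹ * α n * y := ⟨_, rfl⟩
  rw [← hσ] at h1
  have h2 : α n = y * σ * y⁻¹ := by
    rw [hσ]
    generalize α n = x
    group
  rw [h2]
  exact mul_mem (mul_mem hy h1) (inv_mem hy)

theorem As_le_base {V : Type} {Λ : SimpleGraph V} {N : Type} [Group N] {β : N →* P2 Λ} {T U : V → Prop} {y : P2 Λ}
    (h : ∀ v, T v → U v) (hy : y ∈ std Λ (B2 V) U) : As Λ β y T ≤ As Λ β 1 U := by
  intro n hn
  refine mem_As.2 ?_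
  rw [gen2]
  have h1 : y⁻¹ * β n * y ∈ std Λ (B2 V) U := std_mono Λ (B2 V) h (mem_As.1 hn)
  obtain ⟨σ, hσ⟩ : ∃ σ, σ = y⁻¹ * β n * y := ⟨_, rfl⟩
  rw [← hσ] at h1
  have h2 : β n = y * σ * y⁻¹ := by
    rw [hσ]
    generalize β n = x
    group
  rw [h2]
  exact mul_mem (mul_mem hy h1) (inv_mem hy)

theorem NC (hRC : S_RC) (hB7 : S_B7) (hP7 : S_P7) (hD3 : S_D3) (hD4 : S_D4) (hCNT : S_CNT) (hC3 : S_C3)
    (hSUM : S_SUM) (hL2 : S_L2) (hL3 : S_L3) (hL4 : S_L4) : S_NC := by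
  intro N _ V _ Λ α β hα hβ
  have htf : TFr N := hB7 V Λ N β hβ.1
  obtain ⟨S, b, hcl, h1, h2⟩ := hRC N V Λ α β hα hβ 0 1
  have hB0 : Bs Λ α (cjh β b) S := ⟨hα, Vir_cjh hβ b, hcl, by rw [As_cjh, mul_one]; exact h1,
    by rw [As_cjh, mul_one]; exact h2⟩
  obtain ⟨β', hβ'⟩ : ∃ β', β' = cjh β b := ⟨_, rfl⟩
  rw [← hβ'] at hB0
  obtain ⟨hva, hvb, hcl2, hH, hK⟩ := id hB0
  obtain ⟨K, hKd⟩ : ∃ K, K = Ks α 0 1 := ⟨_, rfl⟩
  have hm1 : ∀ n, n ∈ K ↔ α n ∈ std Γ1 B1 (nb 0) := by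
    intro n
    rw [hKd]
    refine ⟨fun h => ?_, fun h => mem_Ks.2 ?_⟩
    · have h3 := mem_Ks.1 h
      rwa [gen2] at h3
    · rwa [gen2]
  have hm2 : ∀ n, n ∈ K ↔ β' n ∈ std Λ (B2 V) (pp Λ S) := by
    intro n
    rw [hKd, hK]
    refine ⟨fun h => ?_, fun h => mem_As.2 ?_⟩
    · have h3 := mem_As.1 h
      rwa [gen2] at h3
    · rwa [gen2]
  obtain ⟨ι1, hι1, hi1, hx1, hpf1⟩ := hC3 N P1 α (std Γ1 B1 (nb 0)) K hm1 hva
  obtain ⟨ι2, hι2, hi2, hx2, hpf2⟩ := hC3 N (P2 Λ) β' (std Λ (B2 V) (pp Λ S)) K hm2 hvb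
  haveI : Fintype (JC Λ S) := Fintype.ofFinite _
  have hTFK : TFr K := by
    intro n hn k hk h
    refine htf (n : N) (fun h3 => hn (Subtype.ext h3)) k hk ?_
    have h4 := congrArg (fun z : K => (z : N)) h
    exact h4
  -- the pieces as subgroups of `K`
  have hp1 : ∀ (j : J1) (y : std Γ1 B1 (nb 0)),
      pf ι1 (fun j : J1 => (std Γ1 B1 (cl j.1)).subgroupOf (std Γ1 B1 (nb 0))) j y = (Hs α j.1 y).subgroupOf K := by
    intro j y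
    ext k
    rw [Subgroup.mem_subgroupOf]
    exact (hpf1 J1 (fun j : J1 => std Γ1 B1 (cl j.1)) j y k).trans mem_Hs.symm
  have hp2 : ∀ (j : JC Λ S) (y : std Λ (B2 V) (pp Λ S)),
      pf ι2 (fun j : JC Λ S => (std Λ (B2 V) j.1).subgroupOf (std Λ (B2 V) (pp Λ S))) j y =
        (As Λ β' y j.1).subgroupOf K := by
    intro j y
    ext k
    rw [Subgroup.mem_subgroupOf]
    exact (hpf2 (JC Λ S) (fun j : JC Λ S => std Λ (B2 V) j.1) j y k).trans mem_As.symm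
  have hsub : ∀ A B : Subgroup N, A ≤ K → B ≤ K → A.subgroupOf K = B.subgroupOf K → A = B := by
    intro A B hA hB h
    ext n
    constructor
    · intro hn
      have h3 : (⟨n, hA hn⟩ : K) ∈ A.subgroupOf K := Subgroup.mem_subgroupOf.2 hn
      rw [h] at h3
      exact Subgroup.mem_subgroupOf.1 h3
    · intro hn
      have h3 : (⟨n, hB hn⟩ : K) ∈ B.subgroupOf K := Subgroup.mem_subgroupOf.2 hn
      rw [← h] at h3
      exact Subgroup.mem_subgroupOf.1 h3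
  have hjc : ∀ (j : JC Λ S) v, j.1 v → pp Λ S v := by
    rintro ⟨_, w, hw, rfl⟩ v hv
    exact hv.1
  refine hCNT K (std Γ1 B1 (nb 0)) (std Λ (B2 V) (pp Λ S)) J1 (JC Λ S) ι1 ι2
    (fun j => (std Γ1 B1 (cl j.1)).subgroupOf (std Γ1 B1 (nb 0)))
    (fun j => (std Λ (B2 V) j.1).subgroupOf (std Λ (B2 V) (pp Λ S)))
    (fun j => Nat.card {v // j.1 v}) hTFK hi1 hx1 hi2 hx2 card_J1 ?_ ?_ ?_ ?_ ?_ ?_ ?_ ?_
  · intro j
    refine subOf (std_mono Γ1 B1 fun a ha => cl_le j.2 a ha) ?_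
    have h3 := hD4 V1 Γ1 (cl j.1) (ind_cl j.1)
    rw [card_cl] at h3
    exact h3
  · have h3 := hD4 V1 Γ1 (nb 0) (ind_nb 0)
    rw [card_nb] at h3
    exact h3
  · intro j
    refine subOf (std_mono Λ (B2 V) (hjc j)) ?_
    exact hD3 V Λ j.1 fun s t hs ht => hcl2.ind' s t (hjc j s hs) (hjc j t ht)
  · have h3 := hD3 V Λ (pp Λ S) hcl2.ind'
    rw [← hSUM V Λ S] at h3
    exact h3
  · intro j y j' y' h
    rw [hp1, hp1] at h
    have h3 := hsub _ _ (by rw [hKd]; exact Hs_le_Ks j.2 y.2) (by rw [hKd]; exact Hs_le_Ks j'.2 y'.2) h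
    obtain ⟨h4, h5⟩ := (hP7 N α hva htf).2.2 0 j.1 j'.1 y y' j.2 j'.2 y.2 y'.2 h3
    exact ⟨Subtype.ext h4, Subgroup.mem_subgroupOf.2 h5⟩
  · intro j y j' y' h
    rw [hp2, hp2] at h
    have h3 := hsub _ _ (by rw [hKd, hK]; exact As_le_base (hjc j) y.2)
      (by rw [hKd, hK]; exact As_le_base (hjc j') y'.2) h
    obtain ⟨_, w, hw, rfl⟩ := j
    obtain ⟨_, w', hw', rfl⟩ := j'
    obtain ⟨h4, h5⟩ := hL4 N V Λ β' S hvb hcl2.ind' w w' y y' hw hw' y.2 y'.2 h3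
    exact ⟨Subtype.ext h4, Subgroup.mem_subgroupOf.2 h5⟩
  · ext L
    constructor
    · rintro ⟨j, y, rfl⟩
      rw [hp1]
      obtain ⟨w, hw, q, hq, he⟩ := hL3 N V Λ α β' S hB0 j.1 y j.2 y.2
      refine ⟨⟨_, w, hw, rfl⟩, ⟨q, hq⟩, ?_⟩
      rw [hp2, he]
    · rintro ⟨j, y, rfl⟩
      rw [hp2]
      obtain ⟨_, w, hw, rfl⟩ := j
      obtain ⟨v', y', hv', hy', _, he⟩ := hL2 N V Λ α β' S hB0 w hw y y.2
      refine ⟨⟨v', hv'⟩, ⟨y', hy'⟩, ?_⟩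
      rw [hp1]
      show (As Λ β' y (lc Λ S w)).subgroupOf K = (Hs α v' y').subgroupOf K
      rw [he]
  · rintro ⟨_, w, hw, rfl⟩
    obtain ⟨v', y', hv', hy', hc, _⟩ := hL2 N V Λ α β' S hB0 w hw 1 (one_mem _)
    obtain ⟨s, t, hs, ht, hst⟩ := hc.two
    have h3 : 1 < Nat.card {v // lc Λ S w v} := by
      haveI : Nontrivial {v // lc Λ S w v} := ⟨⟨⟨s, hs⟩, ⟨t, ht⟩, fun h => hst (congrArg Subtype.val h)⟩⟩
      exact Finite.one_lt_card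
    exact h3

end Pool.Agent.H815.QC
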