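import Pool.Agent.H815.QC.Stm2

/-!
# Project QC: the correspondence between the pieces of the two sides
-/

set_option autoImplicit false

namespace Pool.Agent.H815.QC

open Pool.Agent.Y110.FJ Pool.Agent.T2H65.GP
open scoped commutatorElement

/-- the pieces of the first side are pieces of the second side -/
def S_RC : Prop := ∀ (N : Type) [Group N] (V : Type) [Finite V] (Λ : SimpleGraph V) (α : N →* P1) (β : N →* P2 Λ),
  Vir α → Vir β → ∀ v g, ∃ S b, Cl2 Λ S ∧ Hs α v g = As Λ β b S ∧ Ks α v g = As Λ β b (pp Λ S)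

theorem As_mono {V : Type} {Λ : SimpleGraph V} {N : Type} [Group N] {β : N →* P2 Λ} {b : P2 Λ} {S T : V → Prop}
    (h : ∀ v, S v → T v) : As Λ β b S ≤ As Λ β b T := fun _ hn =>
  mem_pb.2 (std_mono Λ (B2 V) h (mem_pb.1 hn))

theorem comm_le {N : Type} [Group N] (H : Subgroup N) : ⁅H, H⁆ ≤ H := by
  rw [Subgroup.commutator_le]
  intro a ha b hb
  exact mul_mem (mul_mem (mul_mem ha hb) (inv_mem ha)) (inv_mem hb)

theorem RC (hB3 : S_B3) (hB5 : S_B5) (hB6 : S_B6) (hB7 : S_B7) (hP1 : S_P1) (hP3 : S_P3) (hP4 : S_P4)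
    (hR2 : S_R2) (hR5 : S_R5) (hR6 : S_R6) (hR7 : S_R7) : S_RC := by
  intro N _ V _ Λ α β hα hβ v g
  have htf : TFr N := hB7 V Λ N β hβ.1
  obtain ⟨hC1, hC2, hN1, hN2⟩ := hP1 N α hα htf v g
  obtain ⟨h31, h32, h33⟩ := hP3 N α hα htf v g
  obtain ⟨k, hkK, hk1, hk2, hk3⟩ := hP4 N α hα htf v g
  obtain ⟨T, c, hT⟩ := exists_Mn Λ (B2 V) (β k)
  obtain ⟨S, hS⟩ : ∃ S, S = pp Λ T := ⟨_, rfl⟩
  have hkT : k ∈ As Λ β c T := mem_pb.2 hT.1
  obtain ⟨h71, h72, _⟩ := hR7 V Λ N β hβ.1 c T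
  rw [← hS] at h71 h72
  have hSk : ∀ n ∈ As Λ β c S, n * k = k * n := fun n hn => (h72 k hkT n hn).symm
  -- the commutators
  have h1 : ⁅As Λ β c S, As Λ β c S⁆ ≤ Hs α v g := by
    rw [Subgroup.commutator_le]
    intro a ha b hb
    exact hk2 a b (hSk a ha) (hSk b hb)
  have h2 : ⁅Hs α v g, Hs α v g⁆ ≤ As Λ β c S := by
    rw [Subgroup.commutator_le]
    intro a ha b hb
    have ha1 : (c⁻¹ * β a * c) * (c⁻¹ * β k * c) = (c⁻¹ * β k * c) * (c⁻¹ * β a * c) := by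
      have h3 : β a * β k = β k * β a := by rw [← map_mul, ← map_mul, h33 a ha k hkK]
      calc (c⁻¹ * β a * c) * (c⁻¹ * β k * c) = c⁻¹ * (β a * β k) * c := by group
        _ = c⁻¹ * (β k * β a) * c := by rw [h3]
        _ = _ := by group
    have hb1 : (c⁻¹ * β b * c) * (c⁻¹ * β k * c) = (c⁻¹ * β k * c) * (c⁻¹ * β b * c) := by
      have h3 : β b * β k = β k * β b := by rw [← map_mul, ← map_mul, h33 b hb k hkK]
      calc (c⁻¹ * β b * c) * (c⁻¹ * β k * c) = c⁻¹ * (β b * β k) * c := by group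
        _ = c⁻¹ * (β k * β b) * c := by rw [h3]
        _ = _ := by group
    obtain ⟨a1, ha1', a2, ha2, hae, hac⟩ := hB3 V Λ (B2 V) T _ hT _ ha1
    obtain ⟨b1, hb1', b2, hb2, hbe, hbc⟩ := hB3 V Λ (B2 V) T _ hT _ hb1
    have hcyc : ∀ v, IsCyclic (B2 V v) := fun v => inferInstance
    have hab := hB5 V Λ (B2 V) hcyc T _ hT a1 ha1' b1 hb1' hac hbc
    have hcm : ∀ x ∈ std Λ (B2 V) T, ∀ y ∈ std Λ (B2 V) (pp Λ T), x * y = y * x := fun x hx y hy =>
      std_comm Λ (B2 V) (T := T) (T' := pp Λ T) (fun t s ht hs => (hs t ht).symm) hx hy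
    refine mem_pb.2 ?_
    rw [hS]
    have h4 : c⁻¹ * β ⁅a, b⁆ * c = a2 * b2 * a2⁻¹ * b2⁻¹ := by
      rw [commutatorElement_def, map_mul, map_mul, map_mul, map_inv, map_inv]
      have h5 : c⁻¹ * (β a * β b * (β a)⁻¹ * (β b)⁻¹) * c =
          (c⁻¹ * β a * c) * (c⁻¹ * β b * c) * (c⁻¹ * β a * c)⁻¹ * (c⁻¹ * β b * c)⁻¹ := by group
      rw [h5, hae, hbe]
      have e1 : a2 * b1 = b1 * a2 := (hcm b1 hb1' a2 ha2).symm
      have e2 : a1 * b2 = b2 * a1 := hcm a1 ha1' b2 hb2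
      have e3 : a1 * a2 = a2 * a1 := hcm a1 ha1' a2 ha2
      have e4 : b1 * b2 = b2 * b1 := hcm b1 hb1' b2 hb2
      have h6 : (a1 * a2) * (b1 * b2) = (a1 * b1) * (a2 * b2) := by
        rw [mul_assoc a1, ← mul_assoc a2, e1, mul_assoc b1, ← mul_assoc a1]
      have h7 : (b1 * b2) * (a1 * a2) = (a1 * b1) * (b2 * a2) := by
        rw [mul_assoc b1, ← mul_assoc b2, ← e2, mul_assoc a1, ← mul_assoc b1, ← hab]
      have h8 : (a1 * a2) * (b1 * b2) * (a1 * a2)⁻¹ * (b1 * b2)⁻¹ =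
          ((a1 * a2) * (b1 * b2)) * ((b1 * b2) * (a1 * a2))⁻¹ := by group
      rw [h8, h6, h7]
      have e5 : (a1 * b1) * (a2 * b2 * (b2 * a2)⁻¹) = (a2 * b2 * (b2 * a2)⁻¹) * (a1 * b1) := by
        refine hcm _ (mul_mem ha1' hb1') _ ?_
        exact mul_mem (mul_mem ha2 hb2) (inv_mem (mul_mem hb2 ha2))
      calc (a1 * b1) * (a2 * b2) * ((a1 * b1) * (b2 * a2))⁻¹
          = (a1 * b1) * (a2 * b2 * (b2 * a2)⁻¹) * (a1 * b1)⁻¹ := by group
        _ = (a2 * b2 * (b2 * a2)⁻¹) * (a1 * b1) * (a1 * b1)⁻¹ := by rw [e5]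
        _ = a2 * b2 * a2⁻¹ * b2⁻¹ := by group
    rw [h4]
    exact mul_mem (mul_mem (mul_mem ha2 hb2) (inv_mem ha2)) (inv_mem hb2)
  have hNA : NA (As Λ β c S) := by
    obtain ⟨a, ha, b, hb, hne⟩ := hB6 N _ htf hC1 hN1
    exact ⟨a, h2 ha, b, h2 hb, hne⟩
  have hTwo : Two S := hR5 V Λ N β hβ.1 c S hNA
  have hInd : Ind Λ S := by
    intro s t hs ht hst
    obtain ⟨a, ha, a', ha', hcom, hind⟩ := hR6 V Λ N β hβ c S s t hst hs ht
    obtain ⟨i, j, l, hne, he⟩ := hk3 a a' (hSk a ha) (hSk a' ha') hcom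
    have h3 : a ^ i * a' ^ j = 1 := by
      refine h71 _ ?_ (mul_mem (zpow_mem ha i) (zpow_mem ha' j))
      rw [he]
      exact zpow_mem hkT l
    obtain ⟨h4, h5⟩ := hind i j h3
    exact hne.elim (fun h => h h4) fun h => h h5
  obtain ⟨h71', h72', _⟩ := hR7 V Λ N β hβ.1 c S
  have hK1 : Ks α v g ≤ As Λ β c (pp Λ S) := by
    intro y hy
    exact hR2 V Λ N β hβ c S hInd hTwo y fun d hd => (h33 d (h1 hd) y hy).symm
  have hK2 : As Λ β c (pp Λ S) ≤ Ks α v g := by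
    intro y hy
    exact h31 y fun h hh => (h72' h (h2 hh) y hy).symm
  have hK : Ks α v g = As Λ β c (pp Λ S) := le_antisymm hK1 hK2
  have hTwo' : Two (pp Λ S) := hR5 V Λ N β hβ.1 c (pp Λ S) (by rw [← hK]; exact hN2)
  have hInd' : Ind Λ (pp Λ S) := by
    intro s t hs ht hst
    obtain ⟨a, ha, a', ha', hcom, hind⟩ := hR6 V Λ N β hβ c (pp Λ S) s t hst hs ht
    have hane : a ≠ 1 := by
      rintro rfl
      have h3 := (hind 1 0 (by simp)).1
      exact one_ne_zero h3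
    rw [← hK] at ha ha'
    obtain ⟨z, hz⟩ := hC2 a ha hane
    obtain ⟨p, hp⟩ := hz a ha rfl
    obtain ⟨r, hr⟩ := hz a' ha' hcom.symm
    have hp' : z ^ p = a := hp
    have hr' : z ^ r = a' := hr
    have h3 : a ^ r * a' ^ (-p) = 1 := by
      rw [← hp', ← hr', ← zpow_mul, ← zpow_mul, ← zpow_add]
      have : p * r + r * -p = 0 := by ring
      rw [this, zpow_zero]
    obtain ⟨_, h5⟩ := hind r (-p) h3
    have h6 : p = 0 := by omega
    rw [h6, zpow_zero] at hp'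
    exact hane hp'.symm
  have hclo : ∀ u, pp Λ (pp Λ S) u → S u := by
    intro u hu
    rw [hS] at hu ⊢
    intro t ht
    exact hu t fun s hs => (hs t ht).symm
  refine ⟨S, c, ⟨hInd, hTwo, hInd', hTwo', hclo⟩, le_antisymm ?_ ?_, hK⟩
  · intro y hy
    refine As_mono hclo (hR2 V Λ N β hβ c (pp Λ S) hInd' hTwo' y fun d hd => ?_)
    refine h33 y hy d ?_
    rw [hK]
    exact comm_le _ hd
  · intro y hy
    refine h32 y fun k' hk' => ?_
    rw [hK] at hk'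
    exact h72' y hy k' hk'

end Pool.Agent.H815.QC
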