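import Pool.Agent.H815.QC.Stm

/-!
# Project QC (MP_c91b70_al): statements for the quasi-isometry and for the presentations
-/

set_option autoImplicit false

namespace Pool.Agent.H815.QC

open Pool.Agent.Y110.FJ Pool.Agent.T2H65.GP

/-- the relators of the right-angled Coxeter group (verbatim as in the frozen statement S03025) -/
abbrev relC {n : ℕ} (Γ : SimpleGraph (Fin n)) : Set (FreeGroup (Fin n)) :=
  {r : FreeGroup (Fin n) | (∃ a, r = FreeGroup.of a * FreeGroup.of a) ∨
    ∃ a b, Γ.Adj a b ∧ r = (FreeGroup.of a * FreeGroup.of b) ^ 2}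

/-- the relators of the right-angled Artin group (verbatim as in the frozen statement S03025) -/
abbrev relA {m : ℕ} (Λ : SimpleGraph (Fin m)) : Set (FreeGroup (Fin m)) :=
  {r : FreeGroup (Fin m) | ∃ a b, Λ.Adj a b ∧
    r = FreeGroup.of a * FreeGroup.of b * (FreeGroup.of a)⁻¹ * (FreeGroup.of b)⁻¹}

/-- E1. Universal properties (`glift`, `PresentedGroup.toGroup`). -/
def S_E1 : Prop := ∀ (n : ℕ) (Γ : SimpleGraph (Fin n)) (V : Type) (Δ : SimpleGraph V) (e : Fin n ≃ V),
  (∀ a b, Γ.Adj a b ↔ Δ.Adj (e a) (e b)) →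
  Nonempty (PresentedGroup (relC Γ) ≃* GrP Δ (fun _ => Multiplicative (ZMod 2)))

/-- E2. Universal properties. -/
def S_E2 : Prop := ∀ (m : ℕ) (Λ : SimpleGraph (Fin m)), Nonempty (PresentedGroup (relA Λ) ≃* P2 Λ)

/-- the pentagon -/
def C5 : SimpleGraph (Fin 5) where
  Adj a b := b = a + 1 ∨ a = b + 1
  symm := ⟨fun _ _ h => h.symm⟩
  loopless := ⟨fun a h => by
    have : ∀ x : Fin 5, ¬ (x = x + 1 ∨ x = x + 1) := by decide
    exact this _ h⟩

/-- the graph of the Coxeter group -/
def ΓF : SimpleGraph (Fin (5 * 3)) := C5.comap fun a => (finProdFinEquiv.symm a).1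

/-- the graph of the Artin group -/
def ΛF : SimpleGraph (Fin (5 * 2)) := C5.comap fun a => (finProdFinEquiv.symm a).1

/-- the free product of three groups of order two -/
abbrev G3 : Type := Monoid.CoprodI fun _ : Fin 3 => Multiplicative (ZMod 2)

/-- the generator -/
def g3 (i : Fin 3) : G3 := Monoid.CoprodI.of (M := fun _ : Fin 3 => Multiplicative (ZMod 2)) (i := i)
  (Multiplicative.ofAdd 1)

/-- the free group of rank two -/
abbrev F2 : Type := FreeGroup (Fin 2)

/-- the ball of radius `n` for the generators `X` and their inverses -/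
def ball {G : Type} [Group G] (X : Set G) (n : ℕ) : Set G :=
  {g | ∃ l : List G, l.length ≤ n ∧ (∀ x ∈ l, x ∈ X ∨ x⁻¹ ∈ X) ∧ l.prod = g}

/-- A1. A bi-Lipschitz bijection. Let `E = ⟨ab, ac⟩` be the subgroup of index two in `G3 = ⟨a, b, c⟩`, free on `x = ab`,
`y = ac`: a homomorphism `θ : G3 → F2 ⋊ Z/2`, `a ↦ (1, s)`, `b ↦ (x⁻¹.., s)`, ..., where `s` inverts `x` and `y`, is an
isomorphism; so `G3` is in bijection with `F2 × {0, 1}`, the projection `θ₁ : G3 → F2` being coarsely equivariant: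
`θ₁ (g s) = θ₁ g * (letter or 1)`. Use `schroeder_bernstein_of_rel` (Mathlib) with `R g h : (θ₁ g)⁻¹ * h ∈ ball 1` for the
injections `F2 → G3`, `h ↦ (h, 0)`, and `G3 → F2`, `(h, ε) ↦ h * (letter)`, where the letter is one of two letters, depending on
`ε`, different from the inverse of the last letter of the reduced word of `h` (so `h` is obtained from the image by
cutting the last letter). This gives a bijection `β` with `(θ₁ g)⁻¹ * β g ∈ ball 1`, so `β` and its inverse change
distances by bounded amounts for generators. Finally replace `β` by `(β 1)⁻¹ * β`. -/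
def S_A1 : Prop := ∃ β : G3 ≃ F2, β 1 = 1 ∧ ∃ M : ℕ,
  (∀ g, ∀ i, (β g)⁻¹ * β (g * g3 i) ∈ ball (Set.range (FreeGroup.of : Fin 2 → F2)) M) ∧
  (∀ h, ∀ i, (β.symm h)⁻¹ * β.symm (h * FreeGroup.of i) ∈ ball (Set.range g3) M)

/-- A2. Graph products of bi-Lipschitz equivalent groups are bi-Lipschitz equivalent. Let `ρ v : GrP Δ H → H` be the
retraction to the vertex group and `j v : H → GrP Δ H` the inclusion. `GrP Δ G` acts from the right on the set `GrP Δ H`:
`q · g = q * j v ((ρ v q)⁻¹ * β (β⁻¹ (ρ v q) * g))` for `g` in the vertex group of `v`. This is an action of the vertex group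
because `ρ v (q · g) = β (β⁻¹ (ρ v q) * g)`; for adjacent `v`, `w` the actions commute because `ρ w` is not changed by `j v` and the
images of `j v` and `j w` commute. So we have a homomorphism from `GrP Δ G` to (the opposite of) the permutations of
`GrP Δ H` (`glift`), and `F x = 1 · x`. Then `ρ v (F x) = β (σ v x)`, `σ v : GrP Δ G → G` the retraction (induction on `x`, uses
`β 1 = 1`), and `F (x g) = F x * j v ((β (σ v x))⁻¹ * β (σ v x * g))`. The same construction for `β⁻¹` gives `F'`, and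
`F (F' y) = y`, `F' (F x) = x` by induction (`F (x * j v (g)) = F x * j v h` for `g = (σ v x)⁻¹ * β⁻¹ (β (σ v x) * h)`). -/
def S_A2 : Prop := ∀ (V : Type) (Δ : SimpleGraph V) (G H : Type) [Group G] [Group H] (β : G ≃ H), β 1 = 1 →
  ∃ F : GrP Δ (fun _ => G) ≃ GrP Δ (fun _ => H),
    (∀ x v g, ∃ k : G, (F x)⁻¹ * F (x * GrP.of Δ (fun _ => G) v g) =
      GrP.of Δ (fun _ => H) v ((β k)⁻¹ * β (k * g))) ∧
    (∀ y v h, ∃ k : H, (F.symm y)⁻¹ * F.symm (y * GrP.of Δ (fun _ => H) v h) =
      GrP.of Δ (fun _ => G) v ((β.symm k)⁻¹ * β.symm (k * h)))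

/-- A3. The Coxeter group is a graph product over the pentagon (universal properties). -/
def S_A3 : Prop := ∃ e : PresentedGroup (relC ΓF) ≃* GrP C5 (fun _ => G3), ∀ a, e (PresentedGroup.of a) =
  GrP.of C5 (fun _ => G3) (finProdFinEquiv.symm a).1 (g3 (finProdFinEquiv.symm a).2)

/-- A4. The Artin group is a graph product over the pentagon (universal properties). -/
def S_A4 : Prop := ∃ e : PresentedGroup (relA ΛF) ≃* GrP C5 (fun _ => F2), ∀ a, e (PresentedGroup.of a) =
  GrP.of C5 (fun _ => F2) (finProdFinEquiv.symm a).1 (FreeGroup.of (finProdFinEquiv.symm a).2)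

/-- A5. Word length and balls. -/
def S_A5 : Prop := ∀ (n : ℕ) (rels : Set (FreeGroup (Fin n))) (g : PresentedGroup rels) (N : ℕ),
  (∃ w : FreeGroup (Fin n), PresentedGroup.mk rels w = g ∧ w.toWord.length ≤ N) ↔
    g ∈ ball (Set.range (PresentedGroup.of (rels := rels))) N

/-- QI. The second half of the frozen statement S03025 for the graph `ΓF`; to be derived from A1 - A5: `f` is
`e₂⁻¹ ∘ F ∘ e₁`, a bijection, `C = 0`, and `K = M` (extend the estimates for one generator to inverses of generators, by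
`(β k)⁻¹ β (k s⁻¹) = ((β k')⁻¹ β (k' s))⁻¹`, `k' = k s⁻¹`, and to words by induction). -/
def S_QI : Prop := ∃ (m : ℕ) (Λ : SimpleGraph (Fin m)) (f : PresentedGroup (relC ΓF) → PresentedGroup (relA Λ))
    (K C : ℕ),
    (∀ x y (N : ℕ),
      (∃ w : FreeGroup (Fin (5 * 3)), PresentedGroup.mk (relC ΓF) w = x⁻¹ * y ∧ w.toWord.length ≤ N) →
      ∃ w : FreeGroup (Fin m), PresentedGroup.mk (relA Λ) w = (f x)⁻¹ * f y ∧ w.toWord.length ≤ K * N + C) ∧
    (∀ x y (N : ℕ),
      (∃ w : FreeGroup (Fin m), PresentedGroup.mk (relA Λ) w = (f x)⁻¹ * f y ∧ w.toWord.length ≤ N) →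
      ∃ w : FreeGroup (Fin (5 * 3)), PresentedGroup.mk (relC ΓF) w = x⁻¹ * y ∧ w.toWord.length ≤ K * N + C) ∧
    (∀ z, ∃ x, ∃ w : FreeGroup (Fin m), PresentedGroup.mk (relA Λ) w = (f x)⁻¹ * z ∧ w.toWord.length ≤ C)

/-- A6. The quasi-isometry from A1 - A5. -/
def S_A6 : Prop := S_A1 → S_A2 → S_A3 → S_A4 → S_A5 → S_QI

/-- NC. No group `N` is commensurable to both (to be derived from the first file). -/
def S_NC : Prop := ∀ (N : Type) [Group N] (V : Type) [Finite V] (Λ : SimpleGraph V) (α : N →* P1) (β : N →* P2 Λ),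
  Vir α → Vir β → False

end Pool.Agent.H815.QC
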