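import Pool.Agent.H815.QC.RC

/-!
# Project QC (MP_c91b70_al): statements for the last step
-/

set_option autoImplicit false

namespace Pool.Agent.H815.QC

open Pool.Agent.Y110.FJ Pool.Agent.T2H65.GP

/-- C1. With an isomorphism `e` from the subgroup `R` to `F`: `M` is the image under `e` of `ι.range.subgroupOf R`; the
restriction of `ι` is an isomorphism from `R.comap ι` to `ι.range.subgroupOf R`; isomorphic groups have the same `b1`. -/
def S_C1 : Prop := ∀ (K Q F : Type) [Group K] [Group Q] [Group F] (ι : K →* Q) (R : Subgroup Q),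
  Nonempty (R ≃* F) → Function.Injective ι → ι.range.index ≠ 0 →
  ∃ M : Subgroup F, M.index ≠ 0 ∧ M.index = ι.range.relIndex R ∧ b1 (R.comap ι) = b1 M ∧ (TFr K → TFr M)

/-- C2. Conjugate subgroups and isomorphic groups have the same `b1`. -/
def S_C2 : Prop := (∀ (K : Type) [Group K] (k : K) (L : Subgroup K),
  b1 (L.map (MulAut.conj k).toMonoidHom) = b1 L) ∧ (∀ (K L : Type) [Group K] [Group L], Nonempty (K ≃* L) → b1 K = b1 L)

/-- CNT. The counting contradiction. Let `φ L = 2 (b1 L - 1)`, `k` the index of `ι1.range`, `k'` the index of `ι2.range`. By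
D5 on the first side (`χ = 1`: by C1 and D2 for `n = 3`, applied to `R = (R1 j).map (conj y)`, `φ` of `pf ι1 R1 j y` is
the relative index; `TFr` of subgroups) the sum over the classes is `2 k`. By D5 on the second side (`χ j = 2 (s j - 1)`, by
C1 and D1) it is `k' * ∑ 2 (s j - 1)`. By D2 for `n = 6` and C1 with `R = ⊤`: `φ K = 4 k`. By D1: `φ K = 2 k' (∑ s j - 1)`. So
`∑ s j = 2 |J2| - 1`, a contradiction with `2 ≤ s j`. -/
def S_CNT : Prop := ∀ (K Q1 Q2 J1 J2 : Type) [Group K] [Group Q1] [Group Q2] [Fintype J1] [Fintype J2]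
  (ι1 : K →* Q1) (ι2 : K →* Q2) (R1 : J1 → Subgroup Q1) (R2 : J2 → Subgroup Q2) (s : J2 → ℕ),
  TFr K → Function.Injective ι1 → ι1.range.index ≠ 0 → Function.Injective ι2 → ι2.range.index ≠ 0 →
  Fintype.card J1 = 2 →
  (∀ j, Nonempty (R1 j ≃* Monoid.CoprodI fun _ : Fin 3 => Multiplicative (ZMod 2))) →
  Nonempty (Q1 ≃* Monoid.CoprodI fun _ : Fin 6 => Multiplicative (ZMod 2)) →
  (∀ j, Nonempty (R2 j ≃* FreeGroup (Fin (s j)))) →
  Nonempty (Q2 ≃* FreeGroup (Fin (∑ j, s j))) →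
  (∀ j y j' y', pf ι1 R1 j y = pf ι1 R1 j' y' → j = j' ∧ y⁻¹ * y' ∈ R1 j) →
  (∀ j y j' y', pf ι2 R2 j y = pf ι2 R2 j' y' → j = j' ∧ y⁻¹ * y' ∈ R2 j) →
  {L | ∃ j y, L = pf ι1 R1 j y} = {L | ∃ j y, L = pf ι2 R2 j y} →
  (∀ j, 2 ≤ s j) → False

/-- C3. Restriction of a homomorphism. -/
def S_C3 : Prop := ∀ (N P : Type) [Group N] [Group P] (γ : N →* P) (R : Subgroup P) (K : Subgroup N),
  (∀ n, n ∈ K ↔ γ n ∈ R) → Vir γ →
  ∃ ι : K →* R, (∀ n, (ι n : P) = γ n) ∧ Function.Injective ι ∧ ι.range.index ≠ 0 ∧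
    ∀ (J : Type) (T : J → Subgroup P) (j : J) (y : R) (k : K),
      k ∈ pf ι (fun j => (T j).subgroupOf R) j y ↔ (y : P)⁻¹ * γ k * (y : P) ∈ T j

/-- the vertices of `pp Λ S` with the same link as `w` -/
def lc {V : Type} (Λ : SimpleGraph V) (S : V → Prop) (w : V) : V → Prop := fun w' =>
  pp Λ S w' ∧ ∀ u, Λ.Adj w' u ↔ Λ.Adj w u

/-- the classes of the vertices of `pp Λ S` -/
abbrev JC {V : Type} (Λ : SimpleGraph V) (S : V → Prop) : Type := {T : V → Prop // ∃ w, pp Λ S w ∧ T = lc Λ S w}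

/-- SUM. The classes form a partition. -/
def S_SUM : Prop := ∀ (V : Type) [Finite V] (Λ : SimpleGraph V) (S : V → Prop) [Fintype (JC Λ S)],
  ∑ j : JC Λ S, Nat.card {v // j.1 v} = Nat.card {v // pp Λ S v}

/-- the base of the two sides -/
structure Bs {N : Type} [Group N] {V : Type} (Λ : SimpleGraph V) (α : N →* P1) (β : N →* P2 Λ) (S : V → Prop) : Prop where
  va : Vir α
  vb : Vir β
  cl2 : Cl2 Λ S
  hH : Hs α 0 1 = As Λ β 1 S
  hK : Ks α 0 1 = As Λ β 1 (pp Λ S)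

/-- CUT. No vertex of `pp Λ S` has the link `S`. -/
def S_CUT : Prop := ∀ (N : Type) [Group N] (V : Type) [Finite V] (Λ : SimpleGraph V) (α : N →* P1) (β : N →* P2 Λ)
  (S : V → Prop), Bs Λ α β S → ∀ w, pp Λ S w → ¬ ∀ u, Λ.Adj w u ↔ S u

/-- L1. Proof: `S_RC` for `(v', y')` gives `S'`, `b`. `Hs α v' y' ≤ Ks α 0 1` (as `cl v' ⊆ nb 0` and `y' ∈ std (nb 0)`), so
`As b S' ≤ As 1 (pp S)`; by R3 `S' ⊆ pp S` and `b = p₁ p₂` with `p₁ ∈ std (pp S)`, `p₂ ∈ std (S' ∪ pp S')`; take `q = p₁`;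
`As b S' = As q S'` and `As b (pp S') = As q (pp S')` by R7 (for `T = S'` and `T = pp S'`, `S' ⊆ pp (pp S')`).
For the last claim let `w ∈ S'`, `n` with `β n = q w ^ m q⁻¹` (R4), so `n ∈ As q S' = Hs α v' y'`, `n ≠ 1` (`β n ≠ 1` as `w` has
infinite order; e.g. `gp Λ w m = 1` would give with R9, for `t = 1` and `S = ∅`, a contradiction); by P6
the commutators of elements of the centralizer of `n` are in `Ks α v' y' = As q (pp S')`; R8 for `U = pp S'`, `b = c = q`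
(`pp (pp S') ⊆ S'` is independent) gives the claim. -/
def S_L1 : Prop := ∀ (N : Type) [Group N] (V : Type) [Finite V] (Λ : SimpleGraph V) (α : N →* P1) (β : N →* P2 Λ)
  (S : V → Prop), Bs Λ α β S → ∀ (v' : Fin 5) (y' : P1), (v' = 0 + 1 ∨ 0 = v' + 1) → y' ∈ std Γ1 B1 (nb 0) →
  ∃ q ∈ std Λ (B2 V) (pp Λ S), ∃ S' : V → Prop, Cl2 Λ S' ∧ (∀ u, S' u → pp Λ S u) ∧
    Hs α v' y' = As Λ β q S' ∧ Ks α v' y' = As Λ β q (pp Λ S') ∧ ∀ w, S' w → ∀ u, Λ.Adj w u ↔ pp Λ S' u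

/-- L2. Proof: let `n` with `β n = y w ^ m y⁻¹`, `m > 0` (R4), so `n ∈ As 1 (pp S) = Ks α 0 1`, `n ≠ 1` (see L1). Use P5 for
`v = 0`, `g = 1`. Second case: the commutators of elements of the centralizer of `n` are in `Hs α 0 1 = As 1 S`, R8 with
`U = S` gives that the link of `w` is contained in `S`, so it is `S`, contradiction with CUT. First case: `v'`, `y'` with
`n ∈ Hs α v' y'`; use L1 for `v'`, `y'`: `q`, `S'`. With `t = y⁻¹ q`: `t⁻¹ w ^ m t = q⁻¹ β n q ∈ std S'`, so `w ∈ S'` by R9, so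
the link of `w` is `pp S'`, and `t ∈ std (S' ∪ pp S')` by R9. Now `S' = lc S w`: if `w' ∈ S'` then `w' ∈ pp S` and the links of
`w'` and `w` are both `pp S'`; if `w' ∈ pp S` has the same link as `w`, that is `pp S'`, then `w' ∈ pp (pp S') ⊆ S'`
(`Cl2.clo`). And `As q S' = As (y t) S' = As y S'` by R7. -/
def S_L2 : Prop := ∀ (N : Type) [Group N] (V : Type) [Finite V] (Λ : SimpleGraph V) (α : N →* P1) (β : N →* P2 Λ)
  (S : V → Prop), Bs Λ α β S → ∀ w, pp Λ S w → ∀ y ∈ std Λ (B2 V) (pp Λ S),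
  ∃ (v' : Fin 5) (y' : P1), (v' = 0 + 1 ∨ 0 = v' + 1) ∧ y' ∈ std Γ1 B1 (nb 0) ∧ Cl2 Λ (lc Λ S w) ∧
    Hs α v' y' = As Λ β y (lc Λ S w)

/-- L3. From L1: take `w ∈ S'`, `S' = lc S w` as in L2. -/
def S_L3 : Prop := ∀ (N : Type) [Group N] (V : Type) [Finite V] (Λ : SimpleGraph V) (α : N →* P1) (β : N →* P2 Λ)
  (S : V → Prop), Bs Λ α β S → ∀ (v' : Fin 5) (y' : P1), (v' = 0 + 1 ∨ 0 = v' + 1) → y' ∈ std Γ1 B1 (nb 0) →
  ∃ w, pp Λ S w ∧ ∃ q ∈ std Λ (B2 V) (pp Λ S), Hs α v' y' = As Λ β q (lc Λ S w)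

/-- L4. By R3 (twice) `lc S w = lc S w'`. The link of `w` is `pp (lc S w)`. Let `n` with `β n = y w ^ m y⁻¹`, `m > 0` (R4),
`n ∈ As y (lc S w) = As y' (lc S w)`; with `t = y⁻¹ y'`: `t⁻¹ w ^ m t ∈ std (lc S w)`, so by R9 `t ∈ std (lc S w ∪ pp (lc S w))`,
and `t ∈ std (pp S)`. As `pp S` is independent, no element of `pp (lc S w)` is in `pp S`; apply the retraction `er` onto
`std (pp S)` to see that `t ∈ std (lc S w)`. -/
def S_L4 : Prop := ∀ (N : Type) [Group N] (V : Type) [Finite V] (Λ : SimpleGraph V) (β : N →* P2 Λ) (S : V → Prop),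
  Vir β → Ind Λ (pp Λ S) → ∀ w w' y y', pp Λ S w → pp Λ S w' → y ∈ std Λ (B2 V) (pp Λ S) →
  y' ∈ std Λ (B2 V) (pp Λ S) → As Λ β y (lc Λ S w) = As Λ β y' (lc Λ S w') →
  lc Λ S w = lc Λ S w' ∧ y⁻¹ * y' ∈ std Λ (B2 V) (lc Λ S w)

/-- FIN. The frozen statement S03025 (verbatim) from `S_NC`, `S_QI`, `S_E1`, `S_E2`. Take `n = 5 * 3`, `Γ = ΓF`. The second
half is `S_QI`. First half: given `H₁`, `H₂`, `e : H₁ ≃* H₂` apply `S_NC` to `N = H₁`, `V = Fin m`,
`α = e₁ ∘ H₁.subtype`, `β = e₂ ∘ H₂.subtype ∘ e`, where `e₁ : PresentedGroup (relC ΓF) ≃* P1` from `S_E1` (with the bijection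
`finProdFinEquiv.symm : Fin (5 * 3) ≃ Fin 5 × Fin 3`) and `e₂ : PresentedGroup (relA Λ) ≃* P2 Λ` from `S_E2`. -/
def S_FIN : Prop := S_NC → S_QI → S_E1 → S_E2 →
    ∃ (n : ℕ) (Γ : SimpleGraph (Fin n)),
      (∀ (m : ℕ) (Λ : SimpleGraph (Fin m)),
        ¬ ∃ (H₁ : Subgroup (PresentedGroup {r : FreeGroup (Fin n) |
              (∃ a, r = FreeGroup.of a * FreeGroup.of a) ∨
              ∃ a b, Γ.Adj a b ∧ r = (FreeGroup.of a * FreeGroup.of b) ^ 2}))
            (H₂ : Subgroup (PresentedGroup {r : FreeGroup (Fin m) |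
              ∃ a b, Λ.Adj a b ∧
                r = FreeGroup.of a * FreeGroup.of b * (FreeGroup.of a)⁻¹ * (FreeGroup.of b)⁻¹})),
          H₁.index ≠ 0 ∧ H₂.index ≠ 0 ∧ Nonempty (H₁ ≃* H₂)) ∧
      ∃ (m : ℕ) (Λ : SimpleGraph (Fin m))
        (f : PresentedGroup {r : FreeGroup (Fin n) |
              (∃ a, r = FreeGroup.of a * FreeGroup.of a) ∨
              ∃ a b, Γ.Adj a b ∧ r = (FreeGroup.of a * FreeGroup.of b) ^ 2} →
            PresentedGroup {r : FreeGroup (Fin m) |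
              ∃ a b, Λ.Adj a b ∧
                r = FreeGroup.of a * FreeGroup.of b * (FreeGroup.of a)⁻¹ * (FreeGroup.of b)⁻¹})
        (K C : ℕ),
        (∀ x y (N : ℕ),
          (∃ w : FreeGroup (Fin n), PresentedGroup.mk {r : FreeGroup (Fin n) |
              (∃ a, r = FreeGroup.of a * FreeGroup.of a) ∨
              ∃ a b, Γ.Adj a b ∧ r = (FreeGroup.of a * FreeGroup.of b) ^ 2} w = x⁻¹ * y ∧
            w.toWord.length ≤ N) →
          ∃ w : FreeGroup (Fin m), PresentedGroup.mk {r : FreeGroup (Fin m) |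
              ∃ a b, Λ.Adj a b ∧
                r = FreeGroup.of a * FreeGroup.of b * (FreeGroup.of a)⁻¹ * (FreeGroup.of b)⁻¹} w
              = (f x)⁻¹ * f y ∧ w.toWord.length ≤ K * N + C) ∧
        (∀ x y (N : ℕ),
          (∃ w : FreeGroup (Fin m), PresentedGroup.mk {r : FreeGroup (Fin m) |
              ∃ a b, Λ.Adj a b ∧
                r = FreeGroup.of a * FreeGroup.of b * (FreeGroup.of a)⁻¹ * (FreeGroup.of b)⁻¹} w
              = (f x)⁻¹ * f y ∧ w.toWord.length ≤ N) →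
          ∃ w : FreeGroup (Fin n), PresentedGroup.mk {r : FreeGroup (Fin n) |
              (∃ a, r = FreeGroup.of a * FreeGroup.of a) ∨
              ∃ a b, Γ.Adj a b ∧ r = (FreeGroup.of a * FreeGroup.of b) ^ 2} w = x⁻¹ * y ∧
            w.toWord.length ≤ K * N + C) ∧
        (∀ z, ∃ x, ∃ w : FreeGroup (Fin m), PresentedGroup.mk {r : FreeGroup (Fin m) |
              ∃ a b, Λ.Adj a b ∧
                r = FreeGroup.of a * FreeGroup.of b * (FreeGroup.of a)⁻¹ * (FreeGroup.of b)⁻¹} w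
              = (f x)⁻¹ * z ∧ w.toWord.length ≤ C)

end Pool.Agent.H815.QC
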